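import Pool.Agent.Lib.MP_a325a5_ag.Mixed.Indep

/-! Classes of large points, relations, integrality of j. -/

namespace Pool.Agent.Lib.MP_a325a5_ag.Mixed


/-- Representatives of the classes modulo powers of `c₀`. -/
theorem exists_rep {Γ : Type*} [LinearOrderedCommGroupWithZero Γ] {n : ℕ} (U : Finset (Fin n))
    (ξ : Fin n → Γ) (c₀ : Γ) (hc₀ : c₀ ≠ 0) :
    ∃ rep : Fin n → Fin n, (∀ i ∈ U, rep i ∈ U ∧ ∃ z : ℤ, ξ i = c₀ ^ z * ξ (rep i)) ∧
      ∀ i ∈ U, ∀ j ∈ U, (∃ z : ℤ, ξ i = c₀ ^ z * ξ j) → rep i = rep j := by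
  classical
  let W : Fin n → Finset (Fin n) := fun i => U.filter fun j => ∃ z : ℤ, ξ i = c₀ ^ z * ξ j
  have hself : ∀ i ∈ U, i ∈ W i := by
    intro i hi
    simp only [W, Finset.mem_filter]
    exact ⟨hi, 0, by simp⟩
  have heq : ∀ i ∈ U, ∀ j ∈ U, (∃ z : ℤ, ξ i = c₀ ^ z * ξ j) → W i = W j := by
    rintro i hi j hj ⟨z, hz⟩
    ext l
    simp only [W, Finset.mem_filter]
    refine and_congr_right fun _ => ⟨?_, ?_⟩
    · rintro ⟨y, hy⟩
      refine ⟨-z + y, ?_⟩
      rw [zpow_add₀ hc₀, mul_assoc, ← hy, hz, ← mul_assoc, ← zpow_add₀ hc₀, neg_add_cancel,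
        zpow_zero, one_mul]
    · rintro ⟨y, hy⟩
      refine ⟨z + y, ?_⟩
      rw [zpow_add₀ hc₀, mul_assoc, ← hy, hz]
  let rep : Fin n → Fin n := fun i => if h : (W i).Nonempty then (W i).min' h else i
  refine ⟨rep, fun i hi => ?_, fun i hi j hj h => ?_⟩
  · have hne : (W i).Nonempty := ⟨i, hself i hi⟩
    have h1 : rep i = (W i).min' hne := dif_pos hne
    have h2 := (W i).min'_mem hne
    rw [← h1] at h2
    simp only [W, Finset.mem_filter] at h2
    exact h2
  · have h1 := heq i hi j hj h
    simp only [rep, h1]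
    have hne : (W j).Nonempty := ⟨j, hself j hj⟩
    rw [dif_pos hne, dif_pos hne]

/-- Counting independent relations. -/
theorem relations_bound {R M : Type*} [CommRing R] [Nontrivial R] [AddCommGroup M] [Module R M]
    {n h : ℕ} (P : Fin n → M) (T : Finset (Fin n))
    (hT : ∀ r : Fin n → R, ∑ i ∈ T, r i • P i = 0 → ∀ i ∈ T, r i = 0)
    (q : Fin h → Fin n → R) (hq : LinearIndependent R q) (hq0 : ∀ j, ∑ i, q j i • P i = 0) :
    h + T.card ≤ n := by
  classical
  have hli : LinearIndependent R (fun (j : Fin h) (i : {i // i ∉ T}) => q j i.1) := by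
    rw [Fintype.linearIndependent_iff]
    intro g hg
    let w : Fin n → R := fun i => ∑ j, g j * q j i
    have hw : ∀ i ∉ T, w i = 0 := by
      intro i hi
      have := congrFun hg ⟨i, hi⟩
      simpa [Finset.sum_apply] using this
    have hwP : ∑ i, w i • P i = 0 := by
      have h1 : ∑ i, w i • P i = ∑ j, g j • ∑ i, q j i • P i := by
        simp only [w, Finset.sum_smul, Finset.smul_sum, mul_smul]
        exact Finset.sum_comm
      rw [h1]
      exact Finset.sum_eq_zero fun j _ => by rw [hq0 j, smul_zero]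
    have hwT : ∑ i ∈ T, w i • P i = 0 := by
      rw [← hwP]
      refine Finset.sum_subset (Finset.subset_univ T) fun i _ hi => ?_
      rw [hw i hi, zero_smul]
    have hw0 : ∀ i, w i = 0 := by
      intro i
      by_cases hi : i ∈ T
      · exact hT w hwT i hi
      · exact hw i hi
    refine Fintype.linearIndependent_iff.mp hq g ?_
    funext i
    have := hw0 i
    simpa [Finset.sum_apply, w] using this
  have hcard := hli.fintype_card_le_finrank
  rw [Module.finrank_fintype_fun_eq_card, Fintype.card_fin, Fintype.card_subtype_compl,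
    Fintype.card_coe, Fintype.card_fin] at hcard
  have := T.card_le_univ
  rw [Fintype.card_fin] at this
  omega

/-- At a place above 3 the parameter of a curve with integral j-invariant is a unit. -/
theorem v_lam_eq_one {K : Type*} [Field K] (A : ValuationSubring K) (h3 : A.valuation 3 < 1)
    (lam : K) (hlam : lam ≠ 0)
    (hj : IsIntegral ℤ (256 * (lam ^ 2 - lam + 1) ^ 3 / (lam ^ 2 * (lam - 1) ^ 2))) :
    A.valuation lam = 1 := by
  set v := A.valuation with hv
  have h256 : v (256 : K) = 1 := by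
    have h4 : v (4 : K) = 1 := v_four v h3
    have : (256 : K) = 4 ^ 4 := by norm_num
    rw [this, map_pow, h4, one_pow]
  have hle : v (256 * (lam ^ 2 - lam + 1) ^ 3 / (lam ^ 2 * (lam - 1) ^ 2)) ≤ 1 := by
    obtain ⟨p, hp, hp0⟩ := hj
    by_contra hcon
    have hcon := not_le.mp hcon
    set x := 256 * (lam ^ 2 - lam + 1) ^ 3 / (lam ^ 2 * (lam - 1) ^ 2) with hx
    rw [Polynomial.eval₂_eq_sum_range, Finset.sum_range_succ] at hp0
    have hlead : p.coeff p.natDegree = 1 := hp
    rw [hlead, map_one, one_mul] at hp0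
    have h1 : v (∑ i ∈ Finset.range p.natDegree, (algebraMap ℤ K) (p.coeff i) * x ^ i) <
        v x ^ p.natDegree := by
      refine Valuation.map_sum_lt _ (pow_ne_zero _ (zero_lt_one.trans hcon).ne') fun i hi => ?_
      have hi' := Finset.mem_range.mp hi
      rw [map_mul, map_pow]
      calc v ((algebraMap ℤ K) (p.coeff i)) * v x ^ i ≤ 1 * v x ^ i := by
            gcongr
            exact v_int_le_one v _
        _ < v x * v x ^ i := mul_lt_mul_of_pos_right hcon (pow_pos (zero_lt_one.trans hcon) i)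
        _ = v x ^ (i + 1) := (pow_succ' _ _).symm
        _ ≤ v x ^ p.natDegree := pow_le_pow_right₀ hcon.le hi'
    rw [eq_neg_of_add_eq_zero_left hp0, Valuation.map_neg, map_pow] at h1
    exact lt_irrefl _ h1
  rw [map_div₀, map_mul, map_mul, map_pow, map_pow, map_pow, h256, one_mul] at hle
  have hl0 : v lam ≠ 0 := (Valuation.ne_zero_iff v).mpr hlam
  have hlp : 0 < v lam := zero_lt_iff.mpr hl0
  rcases lt_trichotomy (v lam) 1 with h | h | h
  · exfalso
    have h1 : v (lam - 1) = 1 := by
      rw [Valuation.map_sub_eq_of_lt_right, map_one]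
      rwa [map_one]
    have h2 : v (lam ^ 2 - lam + 1) = 1 := by
      rw [Valuation.map_add_eq_of_lt_right, map_one]
      rw [map_one]
      refine Valuation.map_sub_lt v ?_ h
      rw [map_pow]
      exact pow_lt_one₀ zero_le h two_ne_zero
    rw [h1, h2, one_pow, one_pow, mul_one, one_div] at hle
    have h3' : v lam ^ 2 < 1 := pow_lt_one₀ zero_le h two_ne_zero
    have h4 : 1 < (v lam ^ 2)⁻¹ := (one_lt_inv₀ (pow_pos hlp 2)).mpr h3'
    exact absurd hle (not_le.mpr h4)
  · exact h
  · exfalso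
    have h1 : v (lam - 1) = v lam := by
      rw [Valuation.map_sub_eq_of_lt_left]
      rwa [map_one]
    have h2 : v (lam ^ 2 - lam + 1) = v lam ^ 2 := by
      have h5 : v lam < v lam ^ 2 := by
        calc v lam = 1 * v lam := (one_mul _).symm
          _ < v lam * v lam := mul_lt_mul_of_pos_right h hlp
          _ = v lam ^ 2 := (sq _).symm
      have h6 : v (lam ^ 2 - lam) = v lam ^ 2 := by
        rw [Valuation.map_sub_eq_of_lt_left, map_pow]
        rwa [map_pow]
      rw [Valuation.map_add_eq_of_lt_left, h6]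
      rw [h6, map_one]
      exact h.trans h5
    rw [h1, h2, ← pow_add, div_le_iff₀ (pow_pos hlp _), one_mul, ← pow_mul] at hle
    have h7 : v lam ^ (2 + 2) < v lam ^ (2 * 3) := pow_lt_pow_right₀ h (by norm_num)
    exact absurd hle (not_le.mpr h7)

end Pool.Agent.Lib.MP_a325a5_ag.Mixed
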