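import Mathlib

/-! Independence of values of different orders of magnitude; rank of systems of ties. -/

namespace Pool.Agent.Lib.MP_a325a5_ag.Mixed

open Finset

section

variable {Γ : Type*} [LinearOrderedCommGroupWithZero Γ]

/-- all powers are smaller than `T` -/
def Small (T γ : Γ) : Prop := ∀ m : ℕ, γ ^ m < T

theorem small_mul {T a b : Γ} (ha : Small T a) (hb : Small T b) : Small T (a * b) := by
  intro m
  rw [mul_pow]
  rcases le_total a b with h | h
  · calc a ^ m * b ^ m ≤ b ^ m * b ^ m := by gcongr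
      _ = b ^ (m + m) := (pow_add _ _ _).symm
      _ < T := hb _
  · calc a ^ m * b ^ m ≤ a ^ m * a ^ m := by gcongr
      _ = a ^ (m + m) := (pow_add _ _ _).symm
      _ < T := ha _

theorem small_one {T : Γ} (hT : 1 < T) : Small T 1 := by
  intro m
  rwa [one_pow]

theorem small_prod {T : Γ} (hT : 1 < T) {ι : Type*} (s : Finset ι) (f : ι → Γ)
    (h : ∀ i ∈ s, Small T (f i)) : Small T (∏ i ∈ s, f i) := by
  classical
  induction s using Finset.induction_on with
  | empty => simpa using small_one hT
  | insert a s ha ih =>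
    rw [Finset.prod_insert ha]
    exact small_mul (h a (Finset.mem_insert_self a s))
      (ih fun i hi => h i (Finset.mem_insert_of_mem hi))

theorem small_zpow {T a : Γ} (ha : Small T a) (ha1 : 1 ≤ a) (z : ℤ) : Small T (a ^ z) := by
  have hT : 1 < T := by simpa using ha 0
  intro m
  rcases le_total 0 z with h | h
  · obtain ⟨k, rfl⟩ := Int.eq_ofNat_of_zero_le h
    rw [zpow_natCast, ← pow_mul]
    exact ha _
  · have h1 : a ^ z ≤ 1 := by
      calc a ^ z ≤ a ^ (0 : ℤ) := zpow_le_zpow_right₀ ha1 h
        _ = 1 := zpow_zero a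
    exact (pow_le_one₀ zero_le h1).trans_lt hT

end

section

variable {k K : Type*} [Field k] [Field K] [Algebra k K] (A : ValuationSubring K)

theorem values_aux {D : ℕ} (t : Fin D → K)
    (h2 : ∀ j, ∀ c : k, A.valuation (algebraMap k K c) < A.valuation (t j))
    (h3 : ∀ i j, i < j → ∀ m : ℕ, A.valuation (t i) ^ m < A.valuation (t j))
    (b : Fin D → ℤ) (c : k)
    (h : ∏ j, A.valuation (t j) ^ b j = A.valuation (algebraMap k K c)) (j₀ : Fin D)
    (hj₀ : 0 < b j₀) (hmax : ∀ j, j₀ < j → b j = 0) : False := by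
  classical
  have hone : ∀ j, 1 < A.valuation (t j) := fun j => by
    simpa using h2 j 1
  have h4 : A.valuation (t j₀) ^ b j₀ =
      A.valuation (algebraMap k K c) * ∏ j ∈ univ.erase j₀, A.valuation (t j) ^ (-b j) := by
    rw [← h, ← Finset.mul_prod_erase univ _ (mem_univ j₀), mul_assoc, ← Finset.prod_mul_distrib]
    rw [Finset.prod_eq_one, mul_one]
    intro j _
    rw [← zpow_add₀ (zero_lt_one.trans (hone j)).ne', add_neg_cancel, zpow_zero]
  have h5 : Small (A.valuation (t j₀)) (A.valuation (t j₀) ^ b j₀) := by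
    rw [h4]
    refine small_mul (fun m => ?_) (small_prod (hone j₀) _ _ fun j hj => ?_)
    · rw [← map_pow, ← map_pow]
      exact h2 j₀ (c ^ m)
    · rcases lt_trichotomy j j₀ with hlt | heq | hgt
      · exact small_zpow (h3 j j₀ hlt) (hone j).le _
      · exact absurd heq (Finset.ne_of_mem_erase hj)
      · rw [hmax j hgt, neg_zero, zpow_zero]
        exact small_one (hone j₀)
  have h6 := h5 1
  rw [pow_one] at h6
  have h7 : A.valuation (t j₀) ≤ A.valuation (t j₀) ^ b j₀ := by
    calc A.valuation (t j₀) = A.valuation (t j₀) ^ (1 : ℤ) := (zpow_one _).symm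
      _ ≤ A.valuation (t j₀) ^ b j₀ := zpow_le_zpow_right₀ (hone j₀).le hj₀
  exact absurd h6 (not_lt.mpr h7)

theorem values_indep {D : ℕ} (t : Fin D → K)
    (h2 : ∀ j, ∀ c : k, A.valuation (algebraMap k K c) < A.valuation (t j))
    (h3 : ∀ i j, i < j → ∀ m : ℕ, A.valuation (t i) ^ m < A.valuation (t j))
    (b : Fin D → ℤ) (c : k)
    (h : ∏ j, A.valuation (t j) ^ b j = A.valuation (algebraMap k K c)) : b = 0 := by
  classical
  by_contra hb
  obtain ⟨j, hj⟩ := Function.ne_iff.mp hb
  let s := univ.filter fun j => b j ≠ 0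
  have hs : s.Nonempty := ⟨j, by simpa [s] using hj⟩
  let j₀ := s.max' hs
  have hj₀ : b j₀ ≠ 0 := by
    have := s.max'_mem hs
    exact (Finset.mem_filter.mp this).2
  have hmax : ∀ j, j₀ < j → b j = 0 := by
    intro j hjj
    by_contra hne
    exact absurd (s.le_max' j (Finset.mem_filter.mpr ⟨mem_univ _, hne⟩)) (not_le.mpr hjj)
  rcases lt_or_gt_of_ne hj₀ with hneg | hpos
  · refine values_aux A t h2 h3 (fun j => -b j) c⁻¹ ?_ j₀ (by show 0 < -b j₀; omega)
      (fun j hjj => by show -b j = 0; rw [hmax j hjj, neg_zero])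
    rw [map_inv₀, map_inv₀, ← h, ← Finset.prod_inv_distrib]
    exact Finset.prod_congr rfl fun j _ => zpow_neg _ _
  · exact values_aux A t h2 h3 b c h j₀ hpos hmax

end

/-- Rank of a generic system of ties. -/
theorem rank_bound {Γ : Type*} [LinearOrderedCommGroupWithZero Γ] {r D : ℕ} {T : Type}
    [Fintype T] [DecidableEq T] (Z : Finset T) (γ : T → Γ) (hγ : ∀ z, γ z ≠ 0) (c₀ : Γ)
    (hc₀ : c₀ ≠ 0) (hc₁ : c₀ < 1) (N : Fin r → T → ℤ) (hNZ : ∀ k, ∀ z ∉ Z, N k z = 0)
    (β : Fin r → ℤ) (E : ℕ) (hE : E ≠ 0)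
    (hrel : ∀ k, ∃ y : ℤ, (∏ z, γ z ^ N k z) ^ E = c₀ ^ (β k + E * y))
    (hgen : ¬ LinearIndependent ℤ N →
      ∃ m : Fin r → ℤ, (∀ z, ∑ k, m k * N k z = 0) ∧ ¬ (E : ℤ) ∣ ∑ k, m k * β k)
    (u : Fin D → T) (huZ : ∀ j, u j ∈ Z)
    (hind : ∀ b : Fin D → ℤ, (∃ y : ℤ, ∏ j, γ (u j) ^ b j = c₀ ^ y) → b = 0) :
    r + D ≤ Z.card := by
  classical
  choose y hy using hrel
  -- evaluation of combinations
  have hcomb : ∀ a : Fin r → ℤ, (∏ z, γ z ^ (∑ k, a k * N k z)) ^ E =
      c₀ ^ (∑ k, a k * (β k + E * y k)) := by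
    intro a
    have h1 : ∏ z, γ z ^ (∑ k, a k * N k z) = ∏ k, (∏ z, γ z ^ N k z) ^ a k := by
      have h2 : ∀ z, γ z ^ (∑ k, a k * N k z) = ∏ k, (γ z ^ N k z) ^ a k := by
        intro z
        have h3 : ∀ s : Finset (Fin r), γ z ^ (∑ k ∈ s, a k * N k z) =
            ∏ k ∈ s, (γ z ^ N k z) ^ a k := by
          intro s
          induction s using Finset.induction_on with
          | empty => simp
          | insert x s hx ih =>
            rw [Finset.sum_insert hx, Finset.prod_insert hx, zpow_add₀ (hγ z), ih, mul_comm (a x),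
              zpow_mul]
        exact h3 univ
      rw [Finset.prod_congr rfl fun z _ => h2 z, Finset.prod_comm]
      exact Finset.prod_congr rfl fun k _ => Finset.prod_zpow _ _ _
    rw [h1, ← Finset.prod_pow]
    have h2 : ∀ k, ((∏ z, γ z ^ N k z) ^ a k) ^ E = c₀ ^ (a k * (β k + E * y k)) := by
      intro k
      rw [← zpow_natCast, ← zpow_mul, mul_comm (a k), zpow_mul, zpow_natCast, hy k, ← zpow_mul,
        mul_comm]
    rw [Finset.prod_congr rfl fun k _ => h2 k]
    have h3 : ∀ s : Finset (Fin r), ∏ k ∈ s, c₀ ^ (a k * (β k + E * y k)) =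
        c₀ ^ (∑ k ∈ s, a k * (β k + E * y k)) := by
      intro s
      induction s using Finset.induction_on with
      | empty => simp
      | insert x s hx ih => rw [Finset.sum_insert hx, Finset.prod_insert hx, zpow_add₀ hc₀, ih]
    exact h3 univ
  have hinj : ∀ z : ℤ, c₀ ^ z = 1 → z = 0 := by
    intro z hz
    have hp : 0 < c₀ := zero_lt_iff.mpr hc₀
    rcases lt_trichotomy z 0 with h | h | h
    · have := one_lt_zpow_of_neg₀ hp hc₁ h
      exact absurd hz this.ne'
    · exact h
    · have := zpow_lt_one₀ hp hc₁ h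
      exact absurd hz this.ne
  have hrows : LinearIndependent ℤ N := by
    by_contra hdep
    obtain ⟨m, hm1, hm2⟩ := hgen hdep
    apply hm2
    have h1 := hcomb m
    have h2 : ∏ z, γ z ^ (∑ k, m k * N k z) = 1 :=
      Finset.prod_eq_one fun z _ => by rw [hm1 z, zpow_zero]
    rw [h2, one_pow] at h1
    have h3 := hinj _ h1.symm
    have h4 : ∑ k, m k * (β k + E * y k) = ∑ k, m k * β k + E * ∑ k, m k * y k := by
      rw [Finset.mul_sum, ← Finset.sum_add_distrib]
      exact Finset.sum_congr rfl fun k _ => by ring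
    rw [h4] at h3
    exact ⟨-∑ k, m k * y k, by linarith⟩
  have hli : LinearIndependent ℤ (Sum.elim N (Sum.elim (fun j : Fin D => (Pi.single (u j) 1 : T → ℤ))
      (fun z : {z // z ∉ Z} => (Pi.single z.1 1 : T → ℤ)))) := by
    rw [Fintype.linearIndependent_iff]
    intro g hg
    rw [Fintype.sum_sum_type, Fintype.sum_sum_type] at hg
    simp only [Sum.elim_inl, Sum.elim_inr] at hg
    have hev : ∀ z, ∑ k, g (Sum.inl k) * N k z + (∑ j, (if z = u j then g (Sum.inr (Sum.inl j))
        else 0) + ∑ w : {z // z ∉ Z}, (if z = w.1 then g (Sum.inr (Sum.inr w)) else 0)) = 0 := by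
      intro z
      have := congrFun hg z
      simpa [Finset.sum_apply, Pi.single_apply] using this
    have hZ : ∀ w : {z // z ∉ Z}, g (Sum.inr (Sum.inr w)) = 0 := by
      intro w
      have h1 := hev w.1
      rw [Finset.sum_eq_zero fun k _ => by rw [hNZ k w.1 w.2, mul_zero],
        Finset.sum_eq_zero fun j _ => if_neg fun h => w.2 (by rw [h]; exact huZ j),
        Finset.sum_eq_single w] at h1
      · simpa using h1
      · intro w' _ hw'
        exact if_neg fun h => hw' (Subtype.ext h.symm)
      · intro h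
        exact absurd (mem_univ w) h
    have hev' : ∀ z, ∑ k, g (Sum.inl k) * N k z =
        -∑ j, (if z = u j then g (Sum.inr (Sum.inl j)) else 0) := by
      intro z
      have h1 := hev z
      rw [Finset.sum_eq_zero (s := (univ : Finset {z // z ∉ Z})) fun w _ => by
        rw [hZ w, ite_self]] at h1
      linarith
    have hD : (fun j => g (Sum.inr (Sum.inl j))) = 0 := by
      have h1 := hcomb fun k => g (Sum.inl k)
      have h2 : ∏ z, γ z ^ (∑ k, g (Sum.inl k) * N k z) =
          (∏ j, γ (u j) ^ (g (Sum.inr (Sum.inl j))))⁻¹ := by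
        have h3 : ∀ z, γ z ^ (∑ k, g (Sum.inl k) * N k z) =
            (∏ j, (if z = u j then γ (u j) ^ g (Sum.inr (Sum.inl j)) else 1))⁻¹ := by
          intro z
          rw [hev' z, zpow_neg]
          congr 1
          have h4 : ∀ s : Finset (Fin D), γ z ^ (∑ j ∈ s, if z = u j then
              g (Sum.inr (Sum.inl j)) else 0) =
              ∏ j ∈ s, (if z = u j then γ (u j) ^ g (Sum.inr (Sum.inl j)) else 1) := by
            intro s
            induction s using Finset.induction_on with
            | empty => simp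
            | insert x s hx ih =>
              rw [Finset.sum_insert hx, Finset.prod_insert hx, zpow_add₀ (hγ z), ih]
              congr 1
              split_ifs with h
              · rw [h]
              · rw [zpow_zero]
          exact h4 univ
        rw [Finset.prod_congr rfl fun z _ => h3 z, Finset.prod_inv_distrib, Finset.prod_comm]
        congr 1
        refine Finset.prod_congr rfl fun j _ => ?_
        rw [Finset.prod_ite_eq' univ]
        simp
      rw [h2, inv_pow, ← Finset.prod_pow] at h1
      have h5 : (fun j => (E : ℤ) * g (Sum.inr (Sum.inl j))) = 0 := by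
        apply hind
        refine ⟨-∑ k, g (Sum.inl k) * (β k + E * y k), ?_⟩
        rw [zpow_neg, ← h1, inv_inv]
        refine Finset.prod_congr rfl fun j _ => ?_
        rw [mul_comm, zpow_mul, zpow_natCast]
      funext j
      have h6 := congrFun h5 j
      simp only [Pi.zero_apply, mul_eq_zero] at h6
      rcases h6 with h6 | h6
      · exact absurd (by exact_mod_cast h6) hE
      · exact h6
    have hR : ∀ k, g (Sum.inl k) = 0 := by
      have h1 : ∑ k, g (Sum.inl k) • N k = 0 := by
        funext z
        have h2 := hev' z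
        rw [Finset.sum_eq_zero (s := (univ : Finset (Fin D))) fun j _ => by
          have := congrFun hD j
          simp only [Pi.zero_apply] at this
          rw [this, ite_self], neg_zero] at h2
        simpa [Finset.sum_apply] using h2
      exact Fintype.linearIndependent_iff.mp hrows _ h1
    rintro (k | j | w)
    · exact hR k
    · exact congrFun hD j
    · exact hZ w
  have hcard := hli.fintype_card_le_finrank
  rw [Module.finrank_fintype_fun_eq_card, Fintype.card_sum, Fintype.card_sum, Fintype.card_fin,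
    Fintype.card_fin, Fintype.card_subtype_compl, Fintype.card_coe] at hcard
  have := Z.card_le_univ
  omega

end Pool.Agent.Lib.MP_a325a5_ag.Mixed
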