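import Pool.Agent.Lib.MP_a325a5_ag.Mixed.Trop
import Pool.Agent.Lib.MP_a325a5_ag.Mixed.Vals
import Pool.Agent.Lib.MP_a325a5_ag.Mixed.Rel

/-! The number of classes of large points. -/

namespace Pool.Agent.Lib.MP_a325a5_ag.Mixed

open WeierstrassCurve.Affine Finset

theorem zpow_sum' {Γ : Type*} [LinearOrderedCommGroupWithZero Γ] {ι : Type*} (s : Finset ι)
    (c : Γ) (hc : c ≠ 0) (f : ι → ℤ) : c ^ (∑ i ∈ s, f i) = ∏ i ∈ s, c ^ f i := by
  classical
  induction s using Finset.induction_on with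
  | empty => simp
  | insert x s hx ih => rw [Finset.sum_insert hx, Finset.prod_insert hx, zpow_add₀ hc, ih]

theorem class_count {K : Type*} [Field K] {Γ : Type*}
    [LinearOrderedCommGroupWithZero Γ] (v : Valuation K Γ) (h3 : v 3 < 1) (h30 : (3 : K) ≠ 0)
    {n r d M e : ℕ} (hd : n < d) (hM : 0 < M) (he : 0 < e)
    (ρ : Fin r → Bool → Finset (Fin n) → ℕ) (hρ : ∀ k σ B, ρ k σ B < e * M)
    (hgen : ∀ N : Fin r → Option (Fin n) → ℤ,
      (∀ k z, |N k z| ≤ ((n + d : ℕ) : ℤ)) → ¬ LinearIndependent ℤ N →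
      ∀ (σ σ' : Fin r → Bool) (B B' : Fin r → Finset (Fin n)),
        (∀ k, (σ k, B k) ≠ (σ' k, B' k)) →
        ∃ m : Fin r → ℤ, (∀ z, ∑ k, m k * N k z = 0) ∧
          ¬ ((e * M : ℕ) : ℤ) ∣ ∑ k, m k * ((ρ k (σ' k) (B' k) : ℤ) - ρ k (σ k) (B k)))
    (c : Fin r → ℕ × (Fin n → ℕ) → K)
    (hc1 : ∀ k σ B, v (c k (corner M d σ B)) ^ e = v 3 ^ (e * M * (n + 2) * B.card + ρ k σ B))
    (hc2 : ∀ k, ∀ s ∈ box n M d, (∀ σ B, s ≠ corner M d σ B) →
      v (c k s) ^ e ≤ v 3 ^ (e * M * (n + 2) * (n + 1)))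
    (lam : K) (hlam : lam ≠ 0) (P : Fin n → (legendre lam).Point)
    (hP : ∀ k, form M d (c k) lam P = 0) {D : ℕ} (idx : Fin D → Option (Fin n))
    (hidx : ∀ j i, idx j = some i → P i ≠ 0 ∧ Large v (P i))
    (hind : ∀ b : Fin D → ℤ, (∃ y : ℤ, ∏ j, v (coord lam P (idx j)) ^ b j = v 3 ^ y) → b = 0) :
    ∃ T : Finset (Fin n), (∀ i ∈ T, P i ≠ 0 ∧ Large v (P i)) ∧
      (∀ i ∈ T, ∀ j ∈ T, i ≠ j → ∀ z : ℤ, dp v (P i) ≠ v 3 ^ z * dp v (P j)) ∧
      r + D ≤ T.card + 1 ∧ (v lam = 1 → (∀ j, idx j ≠ none) → r + D ≤ T.card) := by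
  classical
  have hv3 : v (3 : K) ≠ 0 := (Valuation.ne_zero_iff v).mpr h30
  have hv3p : 0 < v (3 : K) := zero_lt_iff.mpr hv3
  have hE : e * M ≠ 0 := (Nat.mul_pos he hM).ne'
  -- nonvanishing and domination
  have hc0 : ∀ k σ B, c k (corner M d σ B) ≠ 0 := by
    intro k σ B h
    have := hc1 k σ B
    rw [h, map_zero, zero_pow he.ne'] at this
    exact pow_ne_zero _ hv3 this.symm
  have hlt : ∀ a b : ℕ, a < b → v (3 : K) ^ b < v 3 ^ a := fun a b hab =>
    pow_lt_pow_right_of_lt_one₀ hv3p h3 hab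
  have dom1 : ∀ k σ σ' (B B' : Finset (Fin n)), B' ⊂ B →
      v (c k (corner M d σ B)) < v (c k (corner M d σ' B')) * v 3 ^ (M * n) := by
    intro k σ σ' B B' hBB
    apply lt_of_pow_lt_pow_left₀ e zero_le
    rw [mul_pow, hc1, hc1, ← pow_mul, ← pow_add]
    apply hlt
    have h1 := hρ k σ' B'
    have h2 : B'.card + 1 ≤ B.card := Finset.card_lt_card hBB
    have h4 : e * M * (n + 2) * (B'.card + 1) ≤ e * M * (n + 2) * B.card :=
      Nat.mul_le_mul_left _ h2
    have h5 : M * n * e = e * M * n := by ring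
    have h6 : e * M * (n + 2) * (B'.card + 1) =
        e * M * (n + 2) * B'.card + (e * M * n + e * M + e * M) := by ring
    omega
  have dom2 : ∀ k, ∀ s ∈ box n M d, (∀ σ B, s ≠ corner M d σ B) → ∀ σ B,
      v (c k s) < v (c k (corner M d σ B)) * v 3 ^ (M * n) := by
    intro k s hs hne σ B
    apply lt_of_pow_lt_pow_left₀ e zero_le
    refine (hc2 k s hs hne).trans_lt ?_
    rw [mul_pow, hc1, ← pow_mul, ← pow_add]
    apply hlt
    have h1 := hρ k σ B
    have h2 : B.card ≤ n := by simpa using B.card_le_univ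
    have h4 : e * M * (n + 2) * B.card ≤ e * M * (n + 2) * n := Nat.mul_le_mul_left _ h2
    have h5 : M * n * e = e * M * n := by ring
    have h6 : e * M * (n + 2) * (n + 1) =
        e * M * (n + 2) * n + (e * M * n + e * M + e * M) := by ring
    omega
  choose σ B σ' B' hne hB hB' _ _ heq using fun k => exists_tie' v h3 h30 hM hd (c k) P (hc0 k)
    (dom1 k) (dom2 k) (hP k)
  -- the large affine points
  let U : Finset (Fin n) := univ.filter fun i => P i ≠ 0 ∧ Large v (P i)
  have hU : ∀ i, i ∈ U ↔ P i ≠ 0 ∧ Large v (P i) := fun i => by simp [U]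
  let ξ : Fin n → Γ := fun i => v ((P i).xRep 0)
  have hξdp : ∀ i, P i ≠ 0 → dp v (P i) = (ξ i)⁻¹ := by
    intro i hi
    show dp v (P i) = (v ((P i).xRep 0))⁻¹
    cases hPi : P i with
    | zero => exact absurd hPi hi
    | some x y h => simp [dp]
  have hξ0 : ∀ i ∈ U, ξ i ≠ 0 := by
    intro i hi
    obtain ⟨h1, h2⟩ := (hU i).mp hi
    have h4 := dp_ne_zero v (in1_of_large v h2) h1
    rw [hξdp i h1] at h4
    exact fun h => h4 (by rw [h, inv_zero])
  have hξ1 : ∀ i, P i = 0 → ξ i = 1 := by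
    intro i hi
    show v ((P i).xRep 0) = 1
    rw [hi]
    simp
  obtain ⟨rep, hrep1, hrep2⟩ := exists_rep U ξ (v 3) hv3
  have hrepU : ∀ i ∈ U, rep i ∈ U := fun i hi => (hrep1 i hi).1
  have hzex : ∀ i, ∃ z : ℤ, i ∈ U → ξ i = v 3 ^ z * ξ (rep i) := by
    intro i
    by_cases hi : i ∈ U
    · obtain ⟨z, hz⟩ := (hrep1 i hi).2
      exact ⟨z, fun _ => hz⟩
    · exact ⟨0, fun h => absurd h hi⟩
  choose ζ hζ using hzex
  have hidem : ∀ i ∈ U, rep (rep i) = rep i := fun i hi =>
    (hrep2 i hi (rep i) (hrepU i hi) ⟨ζ i, hζ i hi⟩).symm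
  let T := U.image rep
  have hTU : ∀ i ∈ T, i ∈ U := by
    intro i hi
    obtain ⟨j, hj, rfl⟩ := Finset.mem_image.mp hi
    exact hrepU j hj
  have hTrep : ∀ i ∈ T, rep i = i := by
    intro i hi
    obtain ⟨j, hj, rfl⟩ := Finset.mem_image.mp hi
    exact hidem j hj
  have hvl : v lam ≠ 0 := (Valuation.ne_zero_iff v).mpr hlam
  let γ : Option (Fin n) → Γ := fun z => z.elim (v lam) fun i => if i ∈ U then ξ i else 1
  have hγ : ∀ z, γ z ≠ 0 := by
    intro z
    cases z with
    | none => exact hvl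
    | some i =>
      show (if i ∈ U then ξ i else 1) ≠ 0
      split_ifs with h
      · exact hξ0 i h
      · exact one_ne_zero
  -- rows
  let O : Fin r → Fin n → ℤ := fun k i => (if i ∈ B k then 1 else 0) - (if i ∈ B' k then 1 else 0)
  let ek : Fin r → ℤ := fun k => (if σ k then ((d - (B k).card : ℕ) : ℤ) else 0) -
    (if σ' k then ((d - (B' k).card : ℕ) : ℤ) else 0)
  let N : Bool → Fin r → Option (Fin n) → ℤ := fun fl k z =>
    z.elim (if fl then ek k else 0) fun ρ => ∑ i ∈ U.filter (fun i => rep i = ρ), O k i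
  have hO : ∀ k i, |O k i| ≤ 1 := by
    intro k i
    simp only [O]
    split_ifs <;> simp
  have hNb : ∀ fl k z, |N fl k z| ≤ ((n + d : ℕ) : ℤ) := by
    intro fl k z
    cases z with
    | none =>
      show |if fl then ek k else 0| ≤ _
      have h1 : |ek k| ≤ d := by
        simp only [ek]
        rw [abs_le]
        split_ifs <;> omega
      have h2 : (0 : ℤ) ≤ n := Int.natCast_nonneg _
      have h4 : (0 : ℤ) ≤ d := Int.natCast_nonneg _
      push_cast
      split_ifs
      · linarith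
      · rw [abs_zero]
        linarith
    | some j =>
      show |∑ i ∈ U.filter (fun i => rep i = j), O k i| ≤ _
      calc |∑ i ∈ U.filter (fun i => rep i = j), O k i|
          ≤ ∑ i ∈ U.filter (fun i => rep i = j), |O k i| := Finset.abs_sum_le_sum_abs _ _
        _ ≤ ∑ _i ∈ U.filter (fun i => rep i = j), (1 : ℤ) :=
            Finset.sum_le_sum fun i _ => hO k i
        _ = ((U.filter (fun i => rep i = j)).card : ℤ) := by simp
        _ ≤ ((n + d : ℕ) : ℤ) := by
            have h1 : (U.filter (fun i => rep i = j)).card ≤ n := by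
              simpa using (U.filter (fun i => rep i = j)).card_le_univ
            push_cast
            omega
  -- values of corner monomials
  let Y : Bool → Finset (Fin n) → Γ := fun τ C =>
    v lam ^ (if τ then d - C.card else 0) * ∏ i ∈ U, (if i ∈ C then ξ i else 1)
  have hY0 : ∀ τ C, Y τ C ≠ 0 := by
    intro τ C
    refine mul_ne_zero (pow_ne_zero _ hvl) (Finset.prod_ne_zero_iff.mpr fun i hi => ?_)
    split_ifs
    · exact hξ0 i hi
    · exact one_ne_zero
  have hYM : ∀ τ (C : Finset (Fin n)), (∀ i ∈ C, Large v (P i)) →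
      v lam ^ (corner M d τ C).1 * ∏ i ∈ C, v ((P i).xRep 0) ^ M = Y τ C ^ M := by
    intro τ C hC
    have h1 : v lam ^ (corner M d τ C).1 = (v lam ^ (if τ then d - C.card else 0)) ^ M := by
      rw [← pow_mul]
      congr 1
      cases τ
      · simp [corner]
      · simp [corner, mul_comm]
    have h2 : ∏ i ∈ C, v ((P i).xRep 0) ^ M = (∏ i ∈ U, (if i ∈ C then ξ i else 1)) ^ M := by
      rw [Finset.prod_pow]
      congr 1
      rw [← Finset.prod_filter]
      symm
      apply Finset.prod_subset_one_on_sdiff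
      · intro i hi
        exact (Finset.mem_filter.mp hi).2
      · intro i hi
        have hi' := Finset.mem_sdiff.mp hi
        apply hξ1
        by_contra h0
        exact hi'.2 (Finset.mem_filter.mpr ⟨(hU i).mpr ⟨h0, hC i hi'.1⟩, hi'.1⟩)
      · intro i _
        rfl
    rw [h1, h2, ← mul_pow]
  have hX : ∀ k, (Y (σ k) (B k) / Y (σ' k) (B' k)) ^ (e * M) =
      v 3 ^ (((e * M * (n + 2) * (B' k).card + ρ k (σ' k) (B' k) : ℕ) : ℤ) -
        ((e * M * (n + 2) * (B k).card + ρ k (σ k) (B k) : ℕ) : ℤ)) := by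
    intro k
    have h1 := heq k
    rw [hYM _ _ (hB k), hYM _ _ (hB' k)] at h1
    have h2 := congrArg (· ^ e) h1
    simp only [mul_pow] at h2
    rw [hc1, hc1, ← pow_mul, ← pow_mul, mul_comm M e] at h2
    rw [div_pow, zpow_sub₀ hv3, zpow_natCast, zpow_natCast, div_eq_div_iff
      (pow_ne_zero _ (hY0 _ _)) (pow_ne_zero _ hv3), mul_comm, h2]
  have hsplit : ∀ fl k, (fl = true ∨ v lam = 1) → ∃ y : ℤ, ∏ z, γ z ^ N fl k z =
      Y (σ k) (B k) / Y (σ' k) (B' k) * v 3 ^ y := by
    intro fl k hfl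
    refine ⟨-∑ i ∈ U, ζ i * O k i, ?_⟩
    rw [Fintype.prod_option]
    have h1 : γ none ^ N fl k none = v lam ^ (if σ k then d - (B k).card else 0) /
        v lam ^ (if σ' k then d - (B' k).card else 0) := by
      show v lam ^ (if fl then ek k else 0) = _
      rcases hfl with hfl | hfl
      · rw [if_pos hfl]
        simp only [ek]
        rw [zpow_sub₀ hvl]
        congr 1
        · split_ifs
          · rw [zpow_natCast]
          · rw [zpow_zero, pow_zero]
        · split_ifs
          · rw [zpow_natCast]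
          · rw [zpow_zero, pow_zero]
      · rw [hfl, one_zpow, one_pow, one_pow, div_one]
    have h2 : ∏ j, γ (some j) ^ N fl k (some j) = ∏ i ∈ U, ξ (rep i) ^ O k i := by
      have h4 : ∀ j, γ (some j) ^ N fl k (some j) =
          ∏ i ∈ U.filter (fun i => rep i = j), ξ (rep i) ^ O k i := by
        intro j
        show γ (some j) ^ (∑ i ∈ U.filter (fun i => rep i = j), O k i) = _
        rw [zpow_sum' _ _ (hγ _)]
        refine Finset.prod_congr rfl fun i hi => ?_
        obtain ⟨hi1, hi2⟩ := Finset.mem_filter.mp hi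
        show (if j ∈ U then ξ j else 1) ^ O k i = _
        rw [if_pos (hi2 ▸ hrepU i hi1), hi2]
      rw [Finset.prod_congr rfl fun j _ => h4 j]
      exact Finset.prod_fiberwise U rep fun i => ξ (rep i) ^ O k i
    have h5 : ∏ i ∈ U, ξ (rep i) ^ O k i =
        (∏ i ∈ U, (if i ∈ B k then ξ i else 1)) / (∏ i ∈ U, (if i ∈ B' k then ξ i else 1)) *
          v 3 ^ (-∑ i ∈ U, ζ i * O k i) := by
      rw [← Finset.prod_div_distrib, ← Finset.sum_neg_distrib, zpow_sum' _ _ hv3,
        ← Finset.prod_mul_distrib]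
      refine Finset.prod_congr rfl fun i hi => ?_
      have h6 : ξ (rep i) = v 3 ^ (-ζ i) * ξ i := by
        rw [hζ i hi, ← mul_assoc, ← zpow_add₀ hv3, neg_add_cancel, zpow_zero, one_mul]
      rw [h6, mul_zpow, ← zpow_mul, neg_mul, mul_comm]
      congr 1
      simp only [O]
      rw [zpow_sub₀ (hξ0 i hi)]
      congr 1 <;> split_ifs <;> simp
    rw [h1, h2, h5]
    simp only [Y]
    rw [mul_div_mul_comm, mul_assoc]
  have hmain : ∀ (fl : Bool) (Z : Finset (Option (Fin n))), (fl = true ∨ v lam = 1) →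
      (∀ i ∈ T, some i ∈ Z) → (fl = true → none ∈ Z) → ((∃ j, idx j = none) → none ∈ Z) →
      (∀ z ∈ Z, z ≠ none → ∃ i ∈ T, z = some i) → r + D ≤ Z.card := by
    intro fl Z hfl hTZ hnZ hnZ' hZT
    let u : Fin D → Option (Fin n) := fun j => (idx j).map rep
    refine rank_bound Z γ hγ (v 3) hv3 h3 (N fl) ?_
      (fun k => (ρ k (σ' k) (B' k) : ℤ) - ρ k (σ k) (B k)) (e * M) hE ?_ ?_ u ?_ ?_
    · intro k z hz
      cases z with
      | none =>
        show (if fl then ek k else 0) = 0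
        rw [if_neg]
        intro h
        exact hz (hnZ h)
      | some j =>
        show ∑ i ∈ U.filter (fun i => rep i = j), O k i = 0
        have hemp : U.filter (fun i => rep i = j) = ∅ := by
          rw [Finset.filter_eq_empty_iff]
          intro i hi hij
          exact hz (hTZ j (hij ▸ Finset.mem_image_of_mem rep hi))
        rw [hemp, Finset.sum_empty]
    · intro k
      obtain ⟨y, hy⟩ := hsplit fl k hfl
      refine ⟨((n : ℤ) + 2) * ((B' k).card - (B k).card) + y, ?_⟩
      rw [hy, mul_pow, hX k, ← zpow_natCast (v 3 ^ y), ← zpow_mul, ← zpow_add₀ hv3]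
      congr 1
      push_cast
      ring
    · intro hdep
      exact hgen (N fl) (hNb fl) hdep σ σ' B B' hne
    · intro j
      show (idx j).map rep ∈ Z
      cases hj : idx j with
      | none => exact hnZ' ⟨j, hj⟩
      | some i =>
        exact hTZ _ (Finset.mem_image_of_mem rep ((hU i).mpr (hidx j i hj)))
    · rintro b ⟨y, hy⟩
      apply hind
      have hex : ∀ j, ∃ z : ℤ, v (coord lam P (idx j)) = v 3 ^ z * γ (u j) := by
        intro j
        show ∃ z : ℤ, v (coord lam P (idx j)) = v 3 ^ z * γ ((idx j).map rep)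
        cases hj : idx j with
        | none => exact ⟨0, by simp [coord, γ]⟩
        | some i =>
          have hi : i ∈ U := (hU i).mpr (hidx j i hj)
          refine ⟨ζ i, ?_⟩
          show ξ i = v 3 ^ ζ i * (if rep i ∈ U then ξ (rep i) else 1)
          rw [if_pos (hrepU i hi), ← hζ i hi]
      choose z hz using hex
      refine ⟨∑ j, z j * b j + y, ?_⟩
      rw [zpow_add₀ hv3, ← hy, zpow_sum' _ _ hv3, ← Finset.prod_mul_distrib]
      refine Finset.prod_congr rfl fun j _ => ?_
      rw [hz j, mul_zpow, ← zpow_mul]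
  refine ⟨T, fun i hi => (hU i).mp (hTU i hi), ?_, ?_, ?_⟩
  · intro i hi j hj hij z h
    apply hij
    rw [← hTrep i hi, ← hTrep j hj]
    apply hrep2 i (hTU i hi) j (hTU j hj)
    refine ⟨-z, ?_⟩
    rw [hξdp i ((hU i).mp (hTU i hi)).1, hξdp j ((hU j).mp (hTU j hj)).1] at h
    rw [← inv_inv (ξ i), h, mul_inv, inv_inv, zpow_neg]
  · have h1 := hmain true (insert none (T.image some)) (Or.inl rfl)
      (fun i hi => Finset.mem_insert_of_mem (Finset.mem_image_of_mem _ hi))
      (fun _ => Finset.mem_insert_self _ _) (fun _ => Finset.mem_insert_self _ _)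
      (fun z hz hne => by
        rcases Finset.mem_insert.mp hz with h | h
        · exact absurd h hne
        · obtain ⟨i, hi, rfl⟩ := Finset.mem_image.mp h
          exact ⟨i, hi, rfl⟩)
    refine h1.trans ((Finset.card_insert_le _ _).trans ?_)
    rw [Finset.card_image_of_injective _ (Option.some_injective _)]
  · intro hl1 hno
    have h1 := hmain false (T.image some) (Or.inr hl1)
      (fun i hi => Finset.mem_image_of_mem _ hi) (fun h => absurd h (by simp))
      (fun ⟨j, hj⟩ => absurd hj (hno j))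
      (fun z hz _ => by
        obtain ⟨i, hi, rfl⟩ := Finset.mem_image.mp hz
        exact ⟨i, hi, rfl⟩)
    rwa [Finset.card_image_of_injective _ (Option.some_injective _)] at h1

end Pool.Agent.Lib.MP_a325a5_ag.Mixed
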