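import Mathlib

/-! Definitions: the Legendre family, forms in the x-coordinates of n points, algebraic
endomorphisms. -/

namespace Pool.Agent.Lib.MP_a325a5_ag.Mixed

open WeierstrassCurve WeierstrassCurve.Affine

/-- The Legendre curve `y^2 = x (x - 1) (x - lam)`. -/
def legendre {K : Type*} [Field K] (lam : K) : WeierstrassCurve.Affine K :=
  ⟨0, -(1 + lam), 0, lam, 0⟩

/-- The exponents `(a, m)` with `m i ≤ M` for all `i` and `a + ∑ m i ≤ d M`. -/
def box (n M d : ℕ) : Finset (ℕ × (Fin n → ℕ)) :=
  ((Finset.range (d * M + 1)) ×ˢ (Fintype.piFinset fun _ => Finset.range (M + 1))).filter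
    fun s => s.1 + ∑ i, s.2 i ≤ d * M

/-- The corner exponents: `x^(M 1_B)` and `lam^(M (d - #B)) x^(M 1_B)`. -/
def corner {n : ℕ} (M d : ℕ) (σ : Bool) (B : Finset (Fin n)) : ℕ × (Fin n → ℕ) :=
  (if σ then M * (d - B.card) else 0, fun i => if i ∈ B then M else 0)

/-- The value at `(lam, P_1, .., P_n)` of the polynomial with coefficients `c` in `lam` and the
`x`-coordinates, homogenised to degree `M` in each `x`-coordinate, so that the points at infinity
are allowed. -/
noncomputable def form {K : Type*} [Field K] {n : ℕ} (M d : ℕ) (c : ℕ × (Fin n → ℕ) → K)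
    (lam : K) (P : Fin n → (legendre lam).Point) : K :=
  ∑ s ∈ box n M d, c s * lam ^ s.1 *
    ∏ i, (P i).xRep 0 ^ s.2 i * (P i).xRep 1 ^ (M - s.2 i)

/-- The coordinates: `lam` and the `x`-coordinates (the value at a point at infinity is 1). -/
noncomputable def coord {K : Type*} [Field K] {n : ℕ} (lam : K)
    (P : Fin n → (legendre lam).Point) : Option (Fin n) → K
  | none => lam
  | some i => (P i).xRep 0

/-- A ring acting on the points of the Legendre curve by algebraic endomorphisms: every nonzero
element satisfies a monic quadratic equation over the integers with nonzero constant term, and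
the `x`-coordinate of the image is a rational function `A / B` of the `x`-coordinate. -/
structure AlgAction {K : Type*} [Field K] [DecidableEq K] (lam : K) (R : Type*) [CommRing R]
    [Module R (legendre lam).Point] : Prop where
  /-- every element is a root of a monic quadratic polynomial over the integers -/
  quad : ∀ r : R, r ≠ 0 → ∃ t n : ℤ, n ≠ 0 ∧ r ^ 2 - (t : R) * r + (n : R) = 0
  /-- the x-coordinate of the image is a rational function of the x-coordinate -/
  rat : ∀ r : R, r ≠ 0 → ∃ A B : Polynomial K, B ≠ 0 ∧ B.natDegree < A.natDegree ∧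
    ∀ (x y : K) (h : (legendre lam).Nonsingular x y),
      (B.eval x = 0 → r • (Point.some x y h : (legendre lam).Point) = 0) ∧
      (B.eval x ≠ 0 → ∃ (y' : K) (h' : (legendre lam).Nonsingular (A.eval x / B.eval x) y'),
        r • (Point.some x y h : (legendre lam).Point) = Point.some _ y' h')

end Pool.Agent.Lib.MP_a325a5_ag.Mixed
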