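import Pool.Agent.Lib.MP_a325a5_ag.Mixed.Mult

/-! Algebraic endomorphisms and deep points. -/

set_option linter.unusedSimpArgs false
set_option linter.unusedTactic false
set_option linter.unreachableTactic false
set_option linter.unnecessarySeqFocus false

namespace Pool.Agent.Lib.MP_a325a5_ag.Mixed

open WeierstrassCurve WeierstrassCurve.Affine

variable {K : Type*} [Field K] {Γ : Type*} [LinearOrderedCommGroupWithZero Γ]
  (v : Valuation K Γ) {lam : K}

theorem v_eval [IsAlgClosed K] (A : Polynomial K) (x : K)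
    (h : ∀ a, A.eval a = 0 → A ≠ 0 → v a < v x) :
    v (A.eval x) = v A.leadingCoeff * v x ^ A.natDegree := by
  rcases eq_or_ne A 0 with rfl | hA
  · simp
  have hs := IsAlgClosed.splits A
  rw [hs.eval_eq_prod_roots, map_mul, hs.natDegree_eq_card_roots]
  congr 1
  rw [map_multiset_prod, Multiset.map_map]
  have : ∀ a ∈ A.roots, (⇑v ∘ fun a => x - a) a = v x := by
    intro a ha
    exact Valuation.map_sub_eq_of_lt_left _ (h a (Polynomial.isRoot_of_mem_roots ha) hA)
  rw [Multiset.map_congr rfl this, Multiset.map_const', Multiset.prod_replicate]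

theorem exists_point [IsAlgClosed K] (h3 : v 3 < 1) {x : K} (hx : LL v lam < v x) :
    ∃ (y : K) (h : (legendre lam).Nonsingular x y),
      In1 v (Point.some x y h : (legendre lam).Point) := by
  obtain ⟨y, hy⟩ := IsAlgClosed.exists_pow_nat_eq (x * (x - 1) * (x - lam)) (n := 2) (by norm_num)
  have heq : (legendre lam).Equation x y := (equation_iff' x y).mpr hy
  have hy2 := v_y_sq v heq hx
  have hp : (0 : Γ) < v x := lt_of_le_of_lt zero_le hx
  have hy0 : y ≠ 0 := by
    intro h0
    rw [h0, map_zero, zero_pow two_ne_zero] at hy2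
    exact (pow_ne_zero 3 hp.ne') hy2.symm
  refine ⟨y, ?_, hx⟩
  rw [Affine.nonsingular_iff]
  refine ⟨heq, Or.inr ?_⟩
  simp only [legendre]
  intro h
  have : 2 * y = 0 := by linear_combination h
  rcases mul_eq_zero.mp this with h5 | h5
  · exact two_ne_zero' v h3 h5
  · exact hy0 h5

variable [DecidableEq K]

section

variable {R : Type*} [CommRing R] [Module R (legendre lam).Point]

theorem int_smul_eq (m : ℤ) (P : (legendre lam).Point) : (m : R) • P = m • P := by
  rw [Int.cast_smul_eq_zsmul]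

/-- nonzero elements do not kill large points -/
theorem smul_ne_zero_of_large (h3 : v 3 < 1) (h30 : (3 : K) ≠ 0) (hR : AlgAction lam R) {r : R}
    (hr : r ≠ 0) {P : (legendre lam).Point} (hP : Large v P) (hP0 : P ≠ 0) : r • P ≠ 0 := by
  intro h
  obtain ⟨t, n, hn, hq⟩ := hR.quad r hr
  have h1 : (r ^ 2 - (t : R) * r + (n : R)) • P = 0 := by rw [hq, zero_smul]
  rw [add_smul, sub_smul, sq, mul_smul, mul_smul, h, smul_zero, smul_zero, sub_zero, zero_add,
    int_smul_eq] at h1
  obtain ⟨_, h2⟩ := dp_zsmul v h3 h30 hP n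
  rw [h1, dp_zero] at h2
  obtain ⟨g, hg⟩ := v_int_eq v h3 n hn
  rw [hg] at h2
  have hv3 : v (3 : K) ≠ 0 := (Valuation.ne_zero_iff v).mpr h30
  exact (mul_ne_zero (pow_ne_zero 2 (pow_ne_zero g hv3))
    (dp_ne_zero v (in1_of_large v hP) hP0)) h2.symm

/-- The value of the x-coordinate of the image of a large point. -/
theorem exists_rat [IsAlgClosed K] (h3 : v 3 < 1) (h30 : (3 : K) ≠ 0) (hR : AlgAction lam R)
    {r : R} (hr : r ≠ 0) : ∃ (γ : K) (e : ℕ), γ ≠ 0 ∧ 1 ≤ e ∧
      ∀ (x y : K) (h : (legendre lam).Nonsingular x y),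
        Large v (Point.some x y h : (legendre lam).Point) →
        ∃ (x' y' : K) (h' : (legendre lam).Nonsingular x' y'),
          r • (Point.some x y h : (legendre lam).Point) = Point.some x' y' h' ∧
          v x' = v γ * v x ^ e := by
  obtain ⟨A, B, hB0, hdeg, hAB⟩ := hR.rat r hr
  have hA0 : A ≠ 0 := by
    rintro rfl
    simp at hdeg
  have hv3 : v (3 : K) ≠ 0 := (Valuation.ne_zero_iff v).mpr h30
  have hv3p : 0 < v (3 : K) := zero_lt_iff.mpr hv3
  refine ⟨A.leadingCoeff / B.leadingCoeff, A.natDegree - B.natDegree,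
    div_ne_zero (Polynomial.leadingCoeff_ne_zero.mpr hA0)
      (Polynomial.leadingCoeff_ne_zero.mpr hB0), by omega, ?_⟩
  intro x y h hlarge
  have hL : LL v lam < v 3 * v x := hlarge
  have hL1 : (1 : Γ) < v x := (one_le_LL v).trans_lt (in1_of_large v hlarge)
  have hp : (0 : Γ) < v x := zero_lt_one.trans hL1
  -- a point above a root with large value
  have hroot : ∀ a, v x ≤ v a → ∃ (y : K) (h : (legendre lam).Nonsingular a y),
      Large v (Point.some a y h : (legendre lam).Point) := by
    intro a ha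
    have h1 : LL v lam < v 3 * v a := lt_of_lt_of_le hL (by gcongr)
    have h2 : LL v lam < v a := by
      refine lt_of_lt_of_le h1 ?_
      calc v 3 * v a ≤ 1 * v a := by gcongr
        _ = v a := one_mul _
    obtain ⟨y, hy, _⟩ := exists_point v h3 h2
    exact ⟨y, hy, h1⟩
  have hBroot : ∀ a, B.eval a = 0 → B ≠ 0 → v a < v x := by
    intro a ha _
    by_contra hcon
    obtain ⟨y0, hy0, hl⟩ := hroot a (not_lt.mp hcon)
    exact smul_ne_zero_of_large v h3 h30 hR hr hl (Point.some_ne_zero hy0)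
      ((hAB a y0 hy0).1 ha)
  have hAroot : ∀ a, A.eval a = 0 → A ≠ 0 → v a < v x := by
    intro a ha _
    by_contra hcon
    obtain ⟨y0, hy0, hl⟩ := hroot a (not_lt.mp hcon)
    have hBa : B.eval a ≠ 0 := fun h0 => hcon (hBroot a h0 hB0)
    obtain ⟨y', h', he⟩ := (hAB a y0 hy0).2 hBa
    have hx0 : A.eval a / B.eval a = 0 := by rw [ha, zero_div]
    have hy' : y' = 0 := by
      have := (equation_iff' (lam := lam) _ _).mp h'.1
      rw [hx0] at this
      simp at this
      exact this
    have h2 : (2 : ℕ) • (r • (Point.some a y0 hy0 : (legendre lam).Point)) = 0 := by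
      rw [he, two_nsmul]
      apply Point.add_self_of_Y_eq
      rw [negY_eq, hy', neg_zero]
    rw [smul_comm] at h2
    obtain ⟨hl2, hd2⟩ := dp_nsmul v h3 h30 hl 2
    have hne : (2 : ℕ) • (Point.some a y0 hy0 : (legendre lam).Point) ≠ 0 := by
      intro h0
      rw [h0, dp_zero] at hd2
      have h5 : v ((2 : ℕ) : K) ≠ 0 := by
        rw [Valuation.ne_zero_iff]
        exact_mod_cast two_ne_zero' v h3
      exact (mul_ne_zero (pow_ne_zero 2 h5)
        (dp_ne_zero v (in1_of_large v hl) (Point.some_ne_zero hy0))) hd2.symm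
    exact smul_ne_zero_of_large v h3 h30 hR hr hl2 hne h2
  have hBx : B.eval x ≠ 0 := by
    intro h0
    exact lt_irrefl _ (hBroot x h0 hB0)
  obtain ⟨y', h', he⟩ := (hAB x y h).2 hBx
  refine ⟨_, y', h', he, ?_⟩
  rw [map_div₀, v_eval v A x hAroot, v_eval v B x hBroot, map_div₀]
  have hb : v B.leadingCoeff ≠ 0 :=
    (Valuation.ne_zero_iff v).mpr (Polynomial.leadingCoeff_ne_zero.mpr hB0)
  have hxB : v x ^ B.natDegree ≠ 0 := pow_ne_zero _ hp.ne'
  rw [div_eq_iff (mul_ne_zero hb hxB)]
  calc v A.leadingCoeff * v x ^ A.natDegree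
      = v A.leadingCoeff * v x ^ (A.natDegree - B.natDegree + B.natDegree) := by
        rw [Nat.sub_add_cancel hdeg.le]
    _ = v A.leadingCoeff * (v x ^ (A.natDegree - B.natDegree) * v x ^ B.natDegree) := by
        rw [pow_add]
    _ = (v A.leadingCoeff / v B.leadingCoeff * v B.leadingCoeff) *
        (v x ^ (A.natDegree - B.natDegree) * v x ^ B.natDegree) := by
        rw [div_mul_cancel₀ _ hb]
    _ = _ := by ac_rfl

end

end Pool.Agent.Lib.MP_a325a5_ag.Mixed
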