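import Mathlib

/-! Choice of algebraically independent coordinates and values of algebraic elements. -/

namespace Pool.Agent.Lib.MP_a325a5_ag.Mixed

open Set

variable {F K : Type*} [Field F] [Field K] [Algebra F K]

/-- Exchange: enough algebraically independent coordinates, with the distinguished coordinate
first unless it is algebraic. -/
theorem exists_family {T : Type} [Fintype T] (co : Option T → K)
    (S : Finset (Option T)) (hS : AlgebraicIndependent F (fun z : {z // z ∈ S} => co z)) :
    ∃ (D : ℕ) (idx : Fin D → Option T), S.card ≤ D ∧
      AlgebraicIndependent F (fun j => co (idx j)) ∧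
      (∀ i j, i < j → idx j ≠ none) ∧ (IsAlgebraic F (co none) → ∀ j, idx j ≠ none) ∧
      (¬ IsAlgebraic F (co none) → ∃ j, idx j = none) := by
  classical
  by_cases halg : IsAlgebraic F (co none)
  · let e := S.equivFin
    have hne : ∀ j : Fin S.card, (e.symm j : Option T) ≠ none := by
      intro j h
      have h1 := hS.transcendental (e.symm j)
      rw [h] at h1
      exact h1 halg
    exact ⟨S.card, fun j => (e.symm j : Option T), le_rfl, hS.comp _ e.symm.injective,
      fun i j _ => hne j, fun _ => hne, fun h => absurd halg h⟩
  · have hI : (AlgebraicIndependent.matroid F K).Indep {co none} := by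
      rw [AlgebraicIndependent.matroid_indep_iff]
      have h1 : AlgebraicIndependent F (fun x : ({co none} : Set K) => (x : K)) :=
        (algebraicIndependent_singleton_iff (⟨co none, rfl⟩ : ({co none} : Set K))).mpr halg
      exact h1
    have hJ : (AlgebraicIndependent.matroid F K).Indep (co '' S) := by
      rw [AlgebraicIndependent.matroid_indep_iff]
      have h1 := hS.to_subtype_range
      have h2 : range (fun z : {z // z ∈ S} => co z) = co '' S := by
        ext x
        simp
      rw [h2] at h1
      exact h1
    have hX : ({co none} : Set K) ⊆ range co := by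
      rintro _ rfl
      exact ⟨none, rfl⟩
    have hX' : co '' S ⊆ range co := image_subset_range _ _
    obtain ⟨I, hI1, hI2⟩ := hI.subset_isBasis_of_subset hX (by simp)
    obtain ⟨J, hJ1, hJ2⟩ := hJ.subset_isBasis_of_subset hX' (by simp)
    have hfin : (range co).Finite := finite_range co
    have hIfin : I.Finite := hfin.subset hI1.subset
    have hJfin : J.Finite := hfin.subset hJ1.subset
    have hinj : Set.InjOn co S := by
      intro x hx y hy hxy
      have := hS.injective (a₁ := ⟨x, hx⟩) (a₂ := ⟨y, hy⟩) hxy
      exact congrArg Subtype.val this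
    have hcard : S.card ≤ I.ncard := by
      have h1 : I.encard = J.encard := hI1.encard_eq_encard hJ1
      have h2 : I.ncard = J.ncard := by
        rw [Set.ncard_def, Set.ncard_def, h1]
      rw [h2]
      calc S.card = (co '' (S : Set (Option T))).ncard := by
            rw [hinj.ncard_image, Set.ncard_coe_finset]
        _ ≤ J.ncard := Set.ncard_le_ncard hJ2 hJfin
    have hmem : co none ∈ I := hI2 rfl
    obtain ⟨D', g, hg1, hg2, hg3⟩ : ∃ (D' : ℕ) (g : Fin D' → K), Function.Injective g ∧
        (∀ j, g j ∈ I \ {co none}) ∧ (I \ {co none}).ncard = D' := by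
      have hI'fin : (I \ {co none}).Finite := hIfin.subset sdiff_subset
      let e := hI'fin.toFinset.equivFin
      refine ⟨_, fun j => (e.symm j : K), fun j j' h => e.symm.injective (Subtype.ext h),
        fun j => hI'fin.mem_toFinset.mp (e.symm j).2, ?_⟩
      rw [Set.ncard_eq_toFinset_card _ hI'fin]
    have hidx : ∀ j : Fin D', ∃ i : T, co (some i) = g j := by
      intro j
      obtain ⟨z, hz⟩ := hI1.subset (hg2 j).1
      cases z with
      | none => exact absurd hz.symm (hg2 j).2
      | some i => exact ⟨i, hz⟩
    choose ix hix using hidx
    have hco : (fun j => co ((Fin.cons none fun j => some (ix j) : Fin (D' + 1) → Option T) j)) =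
        (Fin.cons (co none) g : Fin (D' + 1) → K) := by
      funext j
      refine Fin.cases ?_ (fun j => ?_) j
      · rfl
      · exact hix j
    refine ⟨D' + 1, Fin.cons none fun j => some (ix j), ?_, ?_, ?_, fun h => absurd h halg,
      fun _ => ⟨0, rfl⟩⟩
    · have h1 : I.ncard = D' + 1 := by
        have h2 : I = insert (co none) (I \ {co none}) := by
          rw [Set.insert_sdiff_singleton, Set.insert_eq_of_mem hmem]
        rw [h2, Set.ncard_insert_of_notMem (by simp) (hIfin.subset sdiff_subset), hg3]
      omega
    · rw [hco]
      have hIind : AlgebraicIndependent F ((↑) : I → K) := hI1.indep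
      have hf : ∀ j, (Fin.cons (co none) g : Fin (D' + 1) → K) j ∈ I := by
        intro j
        refine Fin.cases ?_ (fun j => ?_) j
        · exact hmem
        · exact (hg2 j).1
      have hinj' : Function.Injective (Fin.cons (co none) g : Fin (D' + 1) → K) := by
        rw [Fin.cons_injective_iff]
        refine ⟨?_, hg1⟩
        rintro ⟨j, hj⟩
        exact (hg2 j).2 hj
      have hfinj : Function.Injective
          (fun j => (⟨(Fin.cons (co none) g : Fin (D' + 1) → K) j, hf j⟩ : I)) :=
        fun j j' h => hinj' (congrArg Subtype.val h)
      have hfin := hIind.comp (fun j => (⟨(Fin.cons (co none) g : Fin (D' + 1) → K) j, hf j⟩ : I))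
        hfinj
      have hfun : ((↑) : I → K) ∘
          (fun j => (⟨(Fin.cons (co none) g : Fin (D' + 1) → K) j, hf j⟩ : I)) =
          (Fin.cons (co none) g : Fin (D' + 1) → K) := rfl
      rw [hfun] at hfin
      exact hfin
    · intro i j hij
      have hj0 : j ≠ 0 := by
        rintro rfl
        exact absurd hij (Fin.not_lt_zero i)
      obtain ⟨j', rfl⟩ := Fin.exists_succ_eq.mpr hj0
      show (some (ix j') : Option T) ≠ none
      exact Option.some_ne_none _

/-- The value of an algebraic element is bounded by the value of an element of the base. -/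
theorem algebraic_bounded (A : ValuationSubring K) (x : K) (hx : IsAlgebraic F x) :
    ∃ c : F, A.valuation x ≤ A.valuation (algebraMap F K c) := by
  classical
  by_contra hcon
  push Not at hcon
  have hint : IsIntegral F x := hx.isIntegral
  have hone : 1 < A.valuation x := by simpa using hcon 1
  have hmonic := minpoly.monic hint
  have h0 := minpoly.aeval F x
  rw [Polynomial.aeval_eq_sum_range, Finset.sum_range_succ] at h0
  have hlead : (minpoly F x).coeff (minpoly F x).natDegree = 1 := hmonic
  rw [hlead, one_smul] at h0
  have h1 : A.valuation (∑ i ∈ Finset.range (minpoly F x).natDegree,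
      (minpoly F x).coeff i • x ^ i) < A.valuation x ^ (minpoly F x).natDegree := by
    refine Valuation.map_sum_lt _ (pow_ne_zero _ (zero_lt_one.trans hone).ne') fun i hi => ?_
    have hi' := Finset.mem_range.mp hi
    rw [Algebra.smul_def, map_mul, map_pow]
    calc A.valuation (algebraMap F K ((minpoly F x).coeff i)) * A.valuation x ^ i
        < A.valuation x * A.valuation x ^ i :=
          mul_lt_mul_of_pos_right (hcon _) (pow_pos (zero_lt_one.trans hone) i)
      _ = A.valuation x ^ (i + 1) := (pow_succ' _ _).symm
      _ ≤ A.valuation x ^ (minpoly F x).natDegree := pow_le_pow_right₀ hone.le hi'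
  rw [eq_neg_of_add_eq_zero_left h0, Valuation.map_neg, map_pow] at h1
  exact lt_irrefl _ h1

end Pool.Agent.Lib.MP_a325a5_ag.Mixed
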