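import Mathlib

/-! Generic valuations: digits in a large base. -/

namespace Pool.Agent.Lib.MP_a325a5_ag.Mixed

open Finset

/-- Bounded integral relations between the rows of bounded dependent systems. -/
theorem exists_bounded_relation (r : ℕ) (τ : Type) [Fintype τ] [DecidableEq τ] (b : ℤ) :
    ∃ C : ℕ, ∀ N : Fin r → τ → ℤ, (∀ k z, |N k z| ≤ b) → ¬ LinearIndependent ℤ N →
      ∃ m : Fin r → ℤ, m ≠ 0 ∧ (∀ k, |m k| ≤ C) ∧ ∀ z, ∑ k, m k * N k z = 0 := by
  classical
  have key : ∀ N : Fin r → τ → ℤ, ∃ m : Fin r → ℤ, ¬ LinearIndependent ℤ N →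
      m ≠ 0 ∧ ∀ z, ∑ k, m k * N k z = 0 := by
    intro N
    by_cases h : LinearIndependent ℤ N
    · exact ⟨0, fun h' => absurd h h'⟩
    · rw [Fintype.linearIndependent_iff] at h
      push Not at h
      obtain ⟨g, hg, i, hi⟩ := h
      refine ⟨g, fun _ => ⟨fun h0 => hi (by rw [h0]; rfl), fun z => ?_⟩⟩
      have := congrFun hg z
      simpa [Finset.sum_apply] using this
  choose m hm using key
  let S : Finset (Fin r → τ → ℤ) :=
    Fintype.piFinset fun _ => Fintype.piFinset fun _ => Finset.Icc (-b) b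
  refine ⟨S.sup fun N => ∑ k, (m N k).natAbs, fun N hN hdep => ?_⟩
  obtain ⟨h1, h2⟩ := hm N hdep
  refine ⟨m N, h1, fun k => ?_, h2⟩
  have hNS : N ∈ S := by
    simp only [S, Fintype.mem_piFinset, Finset.mem_Icc]
    intro k z
    exact abs_le.mp (hN k z)
  have h3 : (m N k).natAbs ≤ ∑ k, (m N k).natAbs :=
    Finset.single_le_sum (f := fun k => (m N k).natAbs) (fun _ _ => Nat.zero_le _) (mem_univ k)
  have h4 : ∑ k, (m N k).natAbs ≤ S.sup fun N => ∑ k, (m N k).natAbs :=
    Finset.le_sup (f := fun N => ∑ k, (m N k).natAbs) hNS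
  rw [Int.abs_eq_natAbs]
  exact_mod_cast h3.trans h4

theorem digits_zero (b C : ℤ) (hC : C < b) (J : ℕ) (c : ℕ → ℤ) (hc : ∀ j, |c j| ≤ C)
    (h : ∑ j ∈ range J, c j * b ^ j = 0) : ∀ j < J, c j = 0 := by
  induction J generalizing c with
  | zero => intro j hj; omega
  | succ J ih =>
    rw [Finset.sum_range_succ'] at h
    have e1 : ∑ j ∈ range J, c (j + 1) * b ^ (j + 1) = b * ∑ j ∈ range J, c (j + 1) * b ^ j := by
      rw [Finset.mul_sum]
      exact Finset.sum_congr rfl fun j _ => by ring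
    rw [e1, pow_zero, mul_one] at h
    have hb : 0 < b := lt_of_le_of_lt (le_trans (abs_nonneg (c 0)) (hc 0)) hC
    have h0 : c 0 = 0 := by
      have hd : b ∣ c 0 := ⟨-∑ j ∈ range J, c (j + 1) * b ^ j, by linarith⟩
      exact Int.eq_zero_of_abs_lt_dvd hd ((hc 0).trans_lt hC)
    rw [h0, add_zero] at h
    have h1 : ∑ j ∈ range J, c (j + 1) * b ^ j = 0 := by
      rcases mul_eq_zero.mp h with h | h
      · omega
      · exact h
    intro j hj
    rcases j with _ | j
    · exact h0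
    · exact ih (fun j => c (j + 1)) (fun j => hc (j + 1)) h1 j (by omega)

/-- The generic valuations of the corner coefficients. -/
theorem exists_generic (r n : ℕ) (b : ℤ) : ∃ (E₀ : ℕ) (ρ : Fin r → Bool → Finset (Fin n) → ℕ),
    0 < E₀ ∧ (∀ k σ B, ρ k σ B < E₀) ∧ ∀ E : ℕ, E₀ ≤ E → ∀ N : Fin r → Option (Fin n) → ℤ,
      (∀ k z, |N k z| ≤ b) → ¬ LinearIndependent ℤ N →
      ∀ (σ σ' : Fin r → Bool) (B B' : Fin r → Finset (Fin n)),
        (∀ k, (σ k, B k) ≠ (σ' k, B' k)) →
        ∃ m : Fin r → ℤ, (∀ z, ∑ k, m k * N k z = 0) ∧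
          ¬ (E : ℤ) ∣ ∑ k, m k * ((ρ k (σ' k) (B' k) : ℤ) - ρ k (σ k) (B k)) := by
  classical
  obtain ⟨C, hC⟩ := exists_bounded_relation r (Option (Fin n)) b
  let T := Fin r × Bool × Finset (Fin n)
  let J := Fintype.card T
  let e : T ≃ Fin J := Fintype.equivFin T
  let q : ℕ := C + 1
  let ρ : Fin r → Bool → Finset (Fin n) → ℕ := fun k σ B => q ^ (e (k, σ, B) : ℕ)
  have hρ : ∀ k σ B, ρ k σ B ≤ q ^ J := fun k σ B =>
    Nat.pow_le_pow_right (Nat.succ_pos C) (e (k, σ, B)).2.le
  refine ⟨(2 * r * C + 2) * q ^ J, ρ, ?_, ?_, ?_⟩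
  · positivity
  · intro k σ B
    calc ρ k σ B ≤ q ^ J := hρ k σ B
      _ < 2 * q ^ J := by
        have : 0 < q ^ J := by positivity
        omega
      _ ≤ (2 * r * C + 2) * q ^ J := by
        gcongr
        omega
  · intro E hE N hN hdep σ σ' B B' hne
    obtain ⟨m, hm0, hmC, hm⟩ := hC N hN hdep
    refine ⟨m, hm, fun hdvd => ?_⟩
    have habs : |∑ k, m k * ((ρ k (σ' k) (B' k) : ℤ) - ρ k (σ k) (B k))| < E := by
      calc |∑ k, m k * ((ρ k (σ' k) (B' k) : ℤ) - ρ k (σ k) (B k))|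
          ≤ ∑ k, |m k * ((ρ k (σ' k) (B' k) : ℤ) - ρ k (σ k) (B k))| :=
            Finset.abs_sum_le_sum_abs _ _
        _ ≤ ∑ _k : Fin r, (C : ℤ) * q ^ J := by
            refine Finset.sum_le_sum fun k _ => ?_
            rw [abs_mul]
            refine mul_le_mul (hmC k) ?_ (abs_nonneg _) (by positivity)
            have h1 : (ρ k (σ' k) (B' k) : ℤ) ≤ (q : ℤ) ^ J := by exact_mod_cast hρ _ _ _
            have h2 : (ρ k (σ k) (B k) : ℤ) ≤ (q : ℤ) ^ J := by exact_mod_cast hρ _ _ _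
            have h3 : (0 : ℤ) ≤ ρ k (σ' k) (B' k) := Int.natCast_nonneg _
            have h4 : (0 : ℤ) ≤ ρ k (σ k) (B k) := Int.natCast_nonneg _
            rw [abs_le]
            constructor <;> linarith
        _ = r * C * q ^ J := by
            rw [Finset.sum_const, Finset.card_univ, Fintype.card_fin]
            simp only [nsmul_eq_mul]
            ring
        _ < ((2 * r * C + 2) * q ^ J : ℕ) := by
            push_cast
            have h5 : (0 : ℤ) < (q : ℤ) ^ J := by positivity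
            have h6 : (0 : ℤ) ≤ (r : ℤ) * C * (q : ℤ) ^ J := by positivity
            nlinarith
        _ ≤ E := by exact_mod_cast hE
    have hzero := Int.eq_zero_of_abs_lt_dvd hdvd habs
    -- digits
    let c : T → ℤ := fun p => m p.1 * ((if p.2 = (σ' p.1, B' p.1) then 1 else 0) -
      (if p.2 = (σ p.1, B p.1) then 1 else 0))
    have hsum : ∑ p : T, c p * (q : ℤ) ^ (e p : ℕ) =
        ∑ k, m k * ((ρ k (σ' k) (B' k) : ℤ) - ρ k (σ k) (B k)) := by
      rw [Fintype.sum_prod_type]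
      refine Finset.sum_congr rfl fun k _ => ?_
      have h1 : ∀ y : Bool × Finset (Fin n), c (k, y) * (q : ℤ) ^ (e (k, y) : ℕ) =
          m k * ((if y = (σ' k, B' k) then (q : ℤ) ^ (e (k, y) : ℕ) else 0) -
            (if y = (σ k, B k) then (q : ℤ) ^ (e (k, y) : ℕ) else 0)) := by
        intro y
        simp only [c]
        split_ifs <;> ring
      rw [Finset.sum_congr rfl fun y _ => h1 y, ← Finset.mul_sum, Finset.sum_sub_distrib,
        Finset.sum_ite_eq' univ, Finset.sum_ite_eq' univ]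
      simp [ρ]
    rw [hzero] at hsum
    have hcb : ∀ p, |c p| ≤ C := by
      intro p
      simp only [c]
      have h1 := hmC p.1
      have h2 : (0 : ℤ) ≤ C := Int.natCast_nonneg _
      split_ifs
      · simp
      · simpa using h1
      · simpa using h1
      · simp
    let c' : ℕ → ℤ := fun j => if h : j < J then c (e.symm ⟨j, h⟩) else 0
    have hc' : ∀ j, |c' j| ≤ C := by
      intro j
      simp only [c']
      split_ifs
      · exact hcb _
      · simp
    have hsum' : ∑ j ∈ range J, c' j * (q : ℤ) ^ j = 0 := by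
      rw [← hsum, ← Equiv.sum_comp e.symm, Finset.sum_range]
      refine Finset.sum_congr rfl fun j _ => ?_
      simp [c']
    have hall := digits_zero q C (by simp [q]) J c' hc' hsum'
    apply hm0
    funext k
    have h1 := hall (e (k, σ' k, B' k)) (e (k, σ' k, B' k)).2
    have h2 : c' (e (k, σ' k, B' k)) = c (k, σ' k, B' k) := by
      simp [c']
    rw [h2] at h1
    have h3 : (σ' k, B' k) ≠ (σ k, B k) := (hne k).symm
    simpa [c, h3] using h1

end Pool.Agent.Lib.MP_a325a5_ag.Mixed
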