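import Pool.Agent.Lib.MP_a325a5_ag.Mixed.End

/-! Linear independence of deep points in different classes. -/

set_option linter.unusedSimpArgs false
set_option linter.unusedTactic false
set_option linter.unreachableTactic false
set_option linter.unnecessarySeqFocus false

namespace Pool.Agent.Lib.MP_a325a5_ag.Mixed

open WeierstrassCurve WeierstrassCurve.Affine

variable {K : Type*} [Field K] {Γ : Type*} [LinearOrderedCommGroupWithZero Γ]
  (v : Valuation K Γ) {lam : K}

theorem exists_LL (lam : K) : ∃ l : K, v l = LL v lam := by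
  rcases le_total (v lam) 1 with h | h
  · exact ⟨1, by rw [map_one]; exact (max_eq_left h).symm⟩
  · exact ⟨lam, (max_eq_right h).symm⟩

theorem large_of_dp {Q : (legendre lam).Point} (h0 : dp v Q ≠ 0)
    (h : dp v Q * LL v lam < v 3) : Large v Q := by
  cases Q with
  | zero => exact absurd rfl h0
  | some x y hxy =>
    have h0' : (v x)⁻¹ ≠ 0 := h0
    have hx : v x ≠ 0 := fun h => h0' (by rw [h, inv_zero])
    have h' : (v x)⁻¹ * LL v lam < v 3 := h
    show LL v lam < v 3 * v x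
    calc LL v lam = (v x)⁻¹ * LL v lam * v x := by
          rw [mul_comm (v x)⁻¹, mul_assoc, inv_mul_cancel₀ hx, mul_one]
      _ < v 3 * v x := mul_lt_mul_of_pos_right h' (zero_lt_iff.mpr hx)

theorem dp_le_one {P : (legendre lam).Point} (hP : In1 v P) : dp v P ≤ 1 := by
  cases P with
  | zero => exact zero_le
  | some x y h =>
    have : (1 : Γ) < v x := (one_le_LL v).trans_lt hP
    exact inv_le_one_of_one_le₀ this.le

theorem exists_deep [IsAlgClosed K] (h3 : v 3 < 1) (h30 : (3 : K) ≠ 0) (a : K) :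
    ∃ P : (legendre lam).Point, P ≠ 0 ∧ Large v P ∧ v a * dp v P ≤ 1 := by
  obtain ⟨l, hl⟩ := exists_LL v lam
  have hv3 : v (3 : K) ≠ 0 := (Valuation.ne_zero_iff v).mpr h30
  have hv3p : 0 < v (3 : K) := zero_lt_iff.mpr hv3
  have hLp : (0 : Γ) < LL v lam := zero_lt_one.trans_le (one_le_LL v)
  obtain ⟨x, hx1, hx2⟩ : ∃ x : K, v (l / 3 ^ 2) ≤ v x ∧ v a ≤ v x := by
    rcases le_total (v (l / 3 ^ 2)) (v a) with h | h
    · exact ⟨a, h, le_rfl⟩
    · exact ⟨_, le_rfl, h⟩
  have h1 : LL v lam < v 3 * v x := by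
    have h2 : v (l / 3 ^ 2) * v 3 ^ 2 = LL v lam := by
      rw [map_div₀, map_pow, hl, div_mul_cancel₀ _ (pow_ne_zero 2 hv3)]
    have hxp : 0 < v x := by
      refine lt_of_lt_of_le ?_ hx1
      rw [zero_lt_iff]
      intro h0
      rw [h0, zero_mul] at h2
      exact hLp.ne h2
    calc LL v lam = v (l / 3 ^ 2) * v 3 ^ 2 := h2.symm
      _ ≤ v x * v 3 ^ 2 := by gcongr
      _ = v 3 * (v 3 * v x) := by
        simp only [pow_succ, pow_zero, one_mul, mul_one] <;> ac_rfl
      _ < 1 * (v 3 * v x) := mul_lt_mul_of_pos_right h3 (mul_pos hv3p hxp)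
      _ = v 3 * v x := one_mul _
  have h2 : LL v lam < v x := by
    refine lt_of_lt_of_le h1 ?_
    calc v 3 * v x ≤ 1 * v x := by gcongr
      _ = v x := one_mul _
  obtain ⟨y, hy, _⟩ := exists_point v h3 h2
  refine ⟨Point.some x y hy, Point.some_ne_zero hy, h1, ?_⟩
  show v a * (v x)⁻¹ ≤ 1
  have hxp : 0 < v x := hLp.trans h2
  calc v a * (v x)⁻¹ ≤ v x * (v x)⁻¹ := by gcongr
    _ = 1 := mul_inv_cancel₀ hxp.ne'

variable [DecidableEq K]

section

variable {R : Type*} [CommRing R] [Module R (legendre lam).Point]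

theorem exists_rat' [IsAlgClosed K] (h3 : v 3 < 1) (h30 : (3 : K) ≠ 0) (hR : AlgAction lam R)
    {r : R} (hr : r ≠ 0) : ∃ (γ : K) (e : ℕ), γ ≠ 0 ∧ 1 ≤ e ∧
      ∀ P : (legendre lam).Point, P ≠ 0 → Large v P →
        r • P ≠ 0 ∧ dp v (r • P) = v γ * dp v P ^ e := by
  obtain ⟨γ, e, hγ, he, h⟩ := exists_rat v h3 h30 hR hr
  refine ⟨γ⁻¹, e, inv_ne_zero hγ, he, ?_⟩
  intro P hP0 hP
  cases P with
  | zero => exact absurd rfl hP0
  | some x y hxy =>
    obtain ⟨x', y', h', h1, h2⟩ := h x y hxy hP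
    rw [h1]
    refine ⟨Point.some_ne_zero h', ?_⟩
    show (v x')⁻¹ = v γ⁻¹ * (v x)⁻¹ ^ e
    rw [h2, mul_inv, map_inv₀, inv_pow]

/-- a nonzero element multiplies the depth by a power of the value of 3 -/
theorem exists_class [IsAlgClosed K] (h3 : v 3 < 1) (h30 : (3 : K) ≠ 0) (hR : AlgAction lam R)
    {r : R} (hr : r ≠ 0) : ∃ g : ℤ, ∀ P : (legendre lam).Point, P ≠ 0 → Large v P →
        r • P ≠ 0 ∧ dp v (r • P) = v 3 ^ g * dp v P := by
  obtain ⟨γ, e, hγ, he, h⟩ := exists_rat' v h3 h30 hR hr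
  obtain ⟨l, hl⟩ := exists_LL v lam
  have hv3 : v (3 : K) ≠ 0 := (Valuation.ne_zero_iff v).mpr h30
  have hv3p : 0 < v (3 : K) := zero_lt_iff.mpr hv3
  have hLp : (0 : Γ) < LL v lam := zero_lt_one.trans_le (one_le_LL v)
  have hγ' : v γ ≠ 0 := (Valuation.ne_zero_iff v).mpr hγ
  have hγp : 0 < v γ := zero_lt_iff.mpr hγ'
  have h32 : v (3 : K) ^ 2 < v 3 := by
    calc v (3 : K) ^ 2 = v 3 * v 3 := sq _
      _ < 1 * v 3 := mul_lt_mul_of_pos_right h3 hv3p
      _ = v 3 := one_mul _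
  -- step 1: e = 1
  have he1 : e = 1 := by
    obtain ⟨P, hP0, hP, hPd⟩ := exists_deep (lam := lam) v h3 h30 (l * γ / 3 ^ 2)
    obtain ⟨h4, h5⟩ := h P hP0 hP
    have hd1 : dp v P ≤ 1 := dp_le_one v (in1_of_large v hP)
    have hd0 : dp v P ≠ 0 := dp_ne_zero v (in1_of_large v hP) hP0
    have hdr0 : dp v (r • P) ≠ 0 := by
      rw [h5]
      exact mul_ne_zero hγ' (pow_ne_zero _ hd0)
    have hlarge : Large v (r • P) := by
      apply large_of_dp v hdr0
      rw [h5]
      refine lt_of_le_of_lt ?_ h32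
      have h6 : v (l * γ / 3 ^ 2) = LL v lam * v γ / v 3 ^ 2 := by
        rw [map_div₀, map_mul, map_pow, hl]
      rw [h6] at hPd
      calc v γ * dp v P ^ e * LL v lam ≤ v γ * dp v P * LL v lam := by
            gcongr
            calc dp v P ^ e ≤ dp v P ^ 1 := pow_le_pow_of_le_one zero_le hd1 he
              _ = dp v P := pow_one _
        _ = (LL v lam * v γ / v 3 ^ 2 * dp v P) * v 3 ^ 2 := by
            rw [div_eq_mul_inv]
            calc v γ * dp v P * LL v lam
                = v γ * dp v P * LL v lam * ((v 3 ^ 2)⁻¹ * v 3 ^ 2) := by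
                  rw [inv_mul_cancel₀ (pow_ne_zero 2 hv3), mul_one]
              _ = _ := by ac_rfl
        _ ≤ 1 * v 3 ^ 2 := by gcongr
        _ = v 3 ^ 2 := one_mul _
    obtain ⟨h7, h8⟩ := dp_nsmul v h3 h30 hP 3
    obtain ⟨_, h9⟩ := dp_nsmul v h3 h30 hlarge 3
    push_cast at h8 h9
    have h10 : (3 : ℕ) • P ≠ 0 := by
      intro h0
      rw [h0, dp_zero] at h8
      exact (mul_ne_zero (pow_ne_zero 2 hv3) hd0) h8.symm
    obtain ⟨_, h11⟩ := h _ h10 h7
    rw [smul_comm, h9, h8, h5] at h11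
    -- v3^2 * (vγ * d^e) = vγ * (v3^2 * d)^e
    have h12 : v (3 : K) ^ 2 = (v 3 ^ 2) ^ e := by
      have h13 : v (3 : K) ^ 2 * (v γ * dp v P ^ e) = (v 3 ^ 2) ^ e * (v γ * dp v P ^ e) := by
        rw [h11, mul_pow]
        ac_rfl
      exact mul_right_cancel₀ (mul_ne_zero hγ' (pow_ne_zero _ hd0)) h13
    by_contra hne
    have h14 : 2 ≤ e := by omega
    have h15 : (v (3 : K) ^ 2) ^ e < v 3 ^ 2 := by
      have h16 : v (3 : K) ^ 2 < 1 := pow_lt_one₀ zero_le h3 two_ne_zero
      calc (v (3 : K) ^ 2) ^ e ≤ (v (3 : K) ^ 2) ^ 2 :=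
            pow_le_pow_of_le_one zero_le h16.le h14
        _ = v (3 : K) ^ 2 * v (3 : K) ^ 2 := sq _
        _ < 1 * v (3 : K) ^ 2 := mul_lt_mul_of_pos_right h16 (pow_pos hv3p 2)
        _ = v (3 : K) ^ 2 := one_mul _
    exact h15.ne h12.symm
  subst he1
  -- step 2: the class of γ
  have hclass : ∃ g : ℤ, v γ = v 3 ^ g := by
    obtain ⟨t, n, hn, hq⟩ := hR.quad r hr
    obtain ⟨gn, hgn⟩ := v_int_eq v h3 n hn
    obtain ⟨a, ha1, ha2⟩ : ∃ a : K, v (l * γ / 3 ^ 2) ≤ v a ∧ v (l * γ ^ 2 / 3 ^ 2) ≤ v a := by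
      rcases le_total (v (l * γ / 3 ^ 2)) (v (l * γ ^ 2 / 3 ^ 2)) with h | h
      · exact ⟨_, h, le_rfl⟩
      · exact ⟨_, le_rfl, h⟩
    obtain ⟨P, hP0, hP, hPd⟩ := exists_deep (lam := lam) v h3 h30 a
    have hd0 : dp v P ≠ 0 := dp_ne_zero v (in1_of_large v hP) hP0
    have hbound : ∀ c : K, v (l * c / 3 ^ 2) ≤ v a → v c * dp v P * LL v lam < v 3 := by
      intro c hc
      refine lt_of_le_of_lt ?_ h32
      have h6 : v (l * c / 3 ^ 2) = LL v lam * v c / v 3 ^ 2 := by
        rw [map_div₀, map_mul, map_pow, hl]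
      have h7 : v (l * c / 3 ^ 2) * dp v P ≤ 1 := le_trans (by gcongr) hPd
      rw [h6] at h7
      calc v c * dp v P * LL v lam
          = (LL v lam * v c / v 3 ^ 2 * dp v P) * v 3 ^ 2 := by
            rw [div_eq_mul_inv]
            calc v c * dp v P * LL v lam
                = v c * dp v P * LL v lam * ((v 3 ^ 2)⁻¹ * v 3 ^ 2) := by
                  rw [inv_mul_cancel₀ (pow_ne_zero 2 hv3), mul_one]
              _ = _ := by ac_rfl
        _ ≤ 1 * v 3 ^ 2 := by gcongr
        _ = v 3 ^ 2 := one_mul _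
    obtain ⟨h4, h5⟩ := h P hP0 hP
    rw [pow_one] at h5
    have hdr0 : dp v (r • P) ≠ 0 := by
      rw [h5]
      exact mul_ne_zero hγ' hd0
    have hlr : Large v (r • P) := large_of_dp v hdr0 (by rw [h5]; exact hbound γ ha1)
    obtain ⟨h6, h7⟩ := h _ h4 hlr
    rw [pow_one, h5, ← mul_assoc, ← sq] at h7
    have hdrr0 : dp v (r • r • P) ≠ 0 := by
      rw [h7]
      exact mul_ne_zero (pow_ne_zero 2 hγ') hd0
    have hlrr : Large v (r • r • P) := large_of_dp v hdrr0 (by
      rw [h7]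
      have := hbound (γ ^ 2) ha2
      rwa [map_pow] at this)
    obtain ⟨hln, hdn⟩ := dp_zsmul v h3 h30 hP n
    have hrel : r • r • P + (-(t • (r • P)) + n • P) = 0 := by
      have h8 : (r ^ 2 - (t : R) * r + (n : R)) • P = 0 := by rw [hq, zero_smul]
      rw [add_smul, sub_smul, sq, mul_smul, mul_smul, int_smul_eq, int_smul_eq] at h8
      rw [← h8]
      abel
    have hdn0 : dp v (n • P) ≠ 0 := by
      rw [hdn, hgn]
      exact mul_ne_zero (pow_ne_zero 2 (pow_ne_zero _ hv3)) hd0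
    rcases eq_or_ne t 0 with rfl | ht
    · -- r^2 P = - n P
      have h9 : r • r • P = -(n • P) := by
        rw [zero_smul, neg_zero, zero_add] at hrel
        exact eq_neg_of_add_eq_zero_left hrel
      have h10 : dp v (r • r • P) = dp v (n • P) := by rw [h9, dp_neg]
      rw [h7, hdn, hgn] at h10
      have h11 := mul_right_cancel₀ hd0 h10
      refine ⟨gn, ?_⟩
      rw [zpow_natCast]
      exact (pow_left_inj₀ zero_le zero_le two_ne_zero).mp h11
    · obtain ⟨gt, hgt⟩ := v_int_eq v h3 t ht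
      obtain ⟨hlt, hdt⟩ := dp_zsmul v h3 h30 hlr t
      rw [h5] at hdt
      have hdt0 : dp v (-(t • (r • P))) ≠ 0 := by
        rw [dp_neg, hdt, hgt]
        exact mul_ne_zero (pow_ne_zero 2 (pow_ne_zero _ hv3)) (mul_ne_zero hγ' hd0)
      by_contra hcon
      push Not at hcon
      let Q : Fin 3 → (legendre lam).Point := ![r • r • P, -(t • (r • P)), n • P]
      have hsum : ∑ i ∈ Finset.univ, Q i ≠ 0 := by
        have h01 : dp v (r • r • P) ≠ dp v (-(t • (r • P))) := by
          rw [dp_neg, h7, hdt, hgt]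
          intro h12
          apply hcon ((2 * gt : ℕ) : ℤ)
          rw [zpow_natCast]
          have h13 : v γ * (v γ * dp v P) = v 3 ^ (2 * gt) * (v γ * dp v P) := by
            rw [← mul_assoc, ← sq, h12, mul_comm 2 gt, pow_mul]
          exact mul_right_cancel₀ (mul_ne_zero hγ' hd0) h13
        have h02 : dp v (r • r • P) ≠ dp v (n • P) := by
          rw [h7, hdn, hgn]
          intro h12
          have h11 := mul_right_cancel₀ hd0 h12
          apply hcon (gn : ℤ)
          rw [zpow_natCast]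
          exact (pow_left_inj₀ zero_le zero_le two_ne_zero).mp h11
        have h12' : dp v (-(t • (r • P))) ≠ dp v (n • P) := by
          rw [dp_neg, hdt, hdn, hgt, hgn]
          intro h12
          apply hcon ((2 * gn : ℕ) - (2 * gt : ℕ) : ℤ)
          rw [zpow_sub₀ hv3, zpow_natCast, zpow_natCast]
          have h13 : (v (3 : K) ^ gt) ^ 2 * v γ * dp v P = (v 3 ^ gn) ^ 2 * dp v P := by
            rw [← h12]; ac_rfl
          have h14 := mul_right_cancel₀ hd0 h13
          rw [← pow_mul, ← pow_mul] at h14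
          rw [eq_div_iff (pow_ne_zero _ hv3), mul_comm 2 gt, mul_comm 2 gn, ← h14, mul_comm]
        refine sum_ne_zero v Finset.univ Finset.univ_nonempty Q ?_ ?_ ?_
        · intro i _
          fin_cases i
          · exact in1_of_large v hlrr
          · exact in1_neg v (in1_of_large v hlt)
          · exact in1_of_large v hln
        · intro i _
          fin_cases i
          · exact fun h => hdrr0 (by
              have : r • r • P = 0 := h
              rw [this]; rfl)
          · exact fun h => hdt0 (by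
              have : -(t • (r • P)) = 0 := h
              rw [this]; rfl)
          · exact fun h => hdn0 (by
              have : n • P = 0 := h
              rw [this]; rfl)
        · intro i _ j _ hij
          fin_cases i <;> fin_cases j
          · exact absurd rfl hij
          · exact h01
          · exact h02
          · exact h01.symm
          · exact absurd rfl hij
          · exact h12'
          · exact h02.symm
          · exact h12'.symm
          · exact absurd rfl hij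
      apply hsum
      rw [Fin.sum_univ_three, ← hrel]
      show r • r • P + -(t • (r • P)) + n • P = _
      abel
  obtain ⟨g, hg⟩ := hclass
  refine ⟨g, fun P hP0 hP => ?_⟩
  obtain ⟨h4, h5⟩ := h P hP0 hP
  rw [pow_one, hg] at h5
  exact ⟨h4, h5⟩

/-- Nonzero ring elements multiply the depth of large points by a power of the value of 3. -/
def Tame (lam : K) (R : Type*) [CommRing R] [Module R (legendre lam).Point] : Prop :=
  ∀ r : R, r ≠ 0 → ∃ g : ℤ, ∀ P : (legendre lam).Point, P ≠ 0 → Large v P →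
    r • P ≠ 0 ∧ dp v (r • P) = v 3 ^ g * dp v P

theorem tame_of_algAction [IsAlgClosed K] (h3 : v 3 < 1) (h30 : (3 : K) ≠ 0)
    (hR : AlgAction lam R) : Tame v lam R := fun _ hr => exists_class v h3 h30 hR hr

theorem tame_int (h3 : v 3 < 1) (h30 : (3 : K) ≠ 0) : Tame v lam ℤ := by
  intro r hr
  obtain ⟨g, hg⟩ := v_int_eq v h3 r hr
  refine ⟨((2 * g : ℕ) : ℤ), fun P hP0 hP => ?_⟩
  obtain ⟨_, h2⟩ := dp_zsmul v h3 h30 hP r
  have h4 : dp v (r • P) = v 3 ^ ((2 * g : ℕ) : ℤ) * dp v P := by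
    rw [h2, hg, zpow_natCast, mul_comm 2 g, pow_mul]
  refine ⟨fun h0 => ?_, h4⟩
  rw [h0, dp_zero] at h4
  have hv3 : v (3 : K) ≠ 0 := (Valuation.ne_zero_iff v).mpr h30
  exact mul_ne_zero (zpow_ne_zero _ hv3) (dp_ne_zero v (in1_of_large v hP) hP0) h4.symm

omit [DecidableEq K] in
theorem dp_mul_lt_of_large {P : (legendre lam).Point} (hP : Large v P) (hP0 : P ≠ 0) :
    dp v P * LL v lam < v 3 := by
  cases P with
  | zero => exact absurd rfl hP0
  | some x y h =>
    have hp : (0 : Γ) < v x := lt_of_le_of_lt zero_le (in1_of_large v hP)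
    have hL : LL v lam < v 3 * v x := hP
    show (v x)⁻¹ * LL v lam < v 3
    calc (v x)⁻¹ * LL v lam < (v x)⁻¹ * (v 3 * v x) :=
          mul_lt_mul_of_pos_left hL (inv_pos.mpr hp)
      _ = v 3 := by
        rw [mul_comm (v 3), ← mul_assoc, inv_mul_cancel₀ hp.ne', one_mul]

/-- Large points in pairwise different classes are linearly independent. -/
theorem indep (h3 : v 3 < 1) (h30 : (3 : K) ≠ 0) (hT : Tame v lam R) {ι : Type*}
    [DecidableEq ι] (s : Finset ι) (P : ι → (legendre lam).Point) (hP : ∀ i ∈ s, Large v (P i))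
    (hP0 : ∀ i ∈ s, P i ≠ 0)
    (hd : ∀ i ∈ s, ∀ j ∈ s, i ≠ j → ∀ z : ℤ, dp v (P i) ≠ v 3 ^ z * dp v (P j))
    (r : ι → R) (hr : ∑ i ∈ s, r i • P i = 0) : ∀ i ∈ s, r i = 0 := by
  classical
  have hv3 : v (3 : K) ≠ 0 := (Valuation.ne_zero_iff v).mpr h30
  have hv3p : 0 < v (3 : K) := zero_lt_iff.mpr hv3
  by_contra hcon
  push Not at hcon
  obtain ⟨i0, hi0, hri0⟩ := hcon
  let s' := s.filter fun i => r i ≠ 0
  have hs' : s'.Nonempty := ⟨i0, Finset.mem_filter.mpr ⟨hi0, hri0⟩⟩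
  have hex : ∀ i, ∃ g : ℤ, r i ≠ 0 → ∀ P : (legendre lam).Point, P ≠ 0 → Large v P →
      r i • P ≠ 0 ∧ dp v (r i • P) = v 3 ^ g * dp v P := by
    intro i
    by_cases h : r i = 0
    · exact ⟨0, fun h' => absurd h h'⟩
    · obtain ⟨g, hg⟩ := hT (r i) h
      exact ⟨g, fun _ => hg⟩
  choose g hg using hex
  let k : ℕ := ∑ i ∈ s', (g i).natAbs
  have hk : ∀ i ∈ s', 0 ≤ g i + 2 * (k : ℤ) := by
    intro i hi
    have h1 : (g i).natAbs ≤ k := Finset.single_le_sum (f := fun i => (g i).natAbs)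
      (fun _ _ => Nat.zero_le _) hi
    omega
  let Q : ι → (legendre lam).Point := fun i => r i • ((3 ^ k : ℕ) • P i)
  have hQ : ∀ i ∈ s', In1 v (Q i) ∧ Q i ≠ 0 ∧
      dp v (Q i) = v 3 ^ (g i + 2 * (k : ℤ)) * dp v (P i) := by
    intro i hi
    have hi1 := (Finset.mem_filter.mp hi).1
    have hi2 := (Finset.mem_filter.mp hi).2
    obtain ⟨h1, h2⟩ := dp_nsmul v h3 h30 (hP i hi1) (3 ^ k)
    have hdi : dp v (P i) ≠ 0 := dp_ne_zero v (in1_of_large v (hP i hi1)) (hP0 i hi1)
    have h2' : dp v ((3 ^ k : ℕ) • P i) = v 3 ^ (2 * (k : ℤ)) * dp v (P i) := by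
      rw [h2]
      push_cast
      rw [map_pow, ← pow_mul, mul_comm k 2, ← zpow_natCast]
      push_cast
      rfl
    have h4 : (3 ^ k : ℕ) • P i ≠ 0 := by
      intro h0
      rw [h0, dp_zero] at h2'
      exact mul_ne_zero (zpow_ne_zero _ hv3) hdi h2'.symm
    obtain ⟨h5, h6⟩ := hg i hi2 _ h4 h1
    have h7 : dp v (Q i) = v 3 ^ (g i + 2 * (k : ℤ)) * dp v (P i) := by
      show dp v (r i • ((3 ^ k : ℕ) • P i)) = _
      rw [h6, h2', zpow_add₀ hv3, mul_assoc]
    refine ⟨in1_of_large v (large_of_dp v ?_ ?_), h5, h7⟩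
    · rw [h7]
      exact mul_ne_zero (zpow_ne_zero _ hv3) hdi
    · rw [h7]
      refine lt_of_le_of_lt ?_ (dp_mul_lt_of_large v (hP i hi1) (hP0 i hi1))
      have h8 : v (3 : K) ^ (g i + 2 * (k : ℤ)) ≤ 1 := by
        obtain ⟨m, hm⟩ := Int.eq_ofNat_of_zero_le (hk i hi)
        rw [hm, zpow_natCast]
        exact pow_le_one₀ zero_le h3.le
      calc v 3 ^ (g i + 2 * (k : ℤ)) * dp v (P i) * LL v lam ≤ 1 * dp v (P i) * LL v lam := by
            gcongr
        _ = dp v (P i) * LL v lam := by rw [one_mul]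
  refine sum_ne_zero v s' hs' Q (fun i hi => (hQ i hi).1) (fun i hi => (hQ i hi).2.1) ?_ ?_
  · intro i hi j hj hij h
    rw [(hQ i hi).2.2, (hQ j hj).2.2] at h
    apply hd i (Finset.mem_filter.mp hi).1 j (Finset.mem_filter.mp hj).1 hij
      ((g j + 2 * (k : ℤ)) - (g i + 2 * (k : ℤ)))
    rw [zpow_sub₀ hv3, div_mul_eq_mul_div, ← h, mul_div_assoc, mul_comm,
      div_mul_cancel₀ _ (zpow_ne_zero _ hv3)]
  · have h1 : ∑ i ∈ s, r i • P i = ∑ i ∈ s', r i • P i := by
      rw [Finset.sum_filter]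
      refine Finset.sum_congr rfl fun i _ => ?_
      split_ifs with h
      · rfl
      · rw [not_not.mp h, zero_smul]
    have h2 : ∑ i ∈ s', Q i = (3 ^ k : ℕ) • ∑ i ∈ s', r i • P i := by
      rw [Finset.smul_sum]
      exact Finset.sum_congr rfl fun i _ => smul_comm _ _ _
    rw [h2, ← h1, hr, smul_zero]

end

end Pool.Agent.Lib.MP_a325a5_ag.Mixed
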