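import Pool.Agent.Lib.MP_a325a5_ag.Mixed.Defs

/-! The Legendre curve over a valued field: points close to the origin. -/

set_option linter.unusedSimpArgs false
set_option linter.unusedTactic false
set_option linter.unreachableTactic false
set_option linter.unnecessarySeqFocus false

namespace Pool.Agent.Lib.MP_a325a5_ag.Mixed

open WeierstrassCurve WeierstrassCurve.Affine

section

variable {K : Type*} [Field K] {Γ : Type*} [LinearOrderedCommGroupWithZero Γ]
  (v : Valuation K Γ) {lam : K}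

theorem equation_iff' (x y : K) :
    (legendre lam).Equation x y ↔ y ^ 2 = x * (x - 1) * (x - lam) := by
  rw [Affine.equation_iff]
  simp only [legendre]
  constructor <;> intro h <;> linear_combination h

theorem negY_eq (x y : K) : (legendre lam).negY x y = -y := by
  simp [Affine.negY, legendre]

theorem addX_mul {x₁ y₁ x₂ y₂ : K} (h₁ : (legendre lam).Equation x₁ y₁)
    (h₂ : (legendre lam).Equation x₂ y₂) (hx : x₁ ≠ x₂) :
    (legendre lam).addX x₁ x₂ ((y₁ - y₂) / (x₁ - x₂)) * (x₁ - x₂) ^ 2 =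
      x₁ * x₂ * (x₁ + x₂) - 2 * (1 + lam) * x₁ * x₂ + lam * (x₁ + x₂) - 2 * y₁ * y₂ := by
  rw [equation_iff'] at h₁ h₂
  have hx' : x₁ - x₂ ≠ 0 := sub_ne_zero.mpr hx
  simp only [Affine.addX, legendre]
  field_simp
  linear_combination h₁ + h₂

/-- product formula -/
theorem addX_mul_addX {x₁ y₁ x₂ y₂ : K} (h₁ : (legendre lam).Equation x₁ y₁)
    (h₂ : (legendre lam).Equation x₂ y₂) (hx : x₁ ≠ x₂) :
    (legendre lam).addX x₁ x₂ ((y₁ - y₂) / (x₁ - x₂)) *
      (legendre lam).addX x₁ x₂ ((y₁ - -y₂) / (x₁ - x₂)) * (x₁ - x₂) ^ 2 =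
      (x₁ * x₂ - lam) ^ 2 := by
  have h₂' : (legendre lam).Equation x₂ (-y₂) := by
    rw [equation_iff'] at h₂ ⊢
    linear_combination h₂
  have e1 := addX_mul h₁ h₂ hx
  have e2 := addX_mul h₁ h₂' hx
  rw [equation_iff'] at h₁ h₂
  have hx' : (x₁ - x₂) ^ 2 ≠ 0 := pow_ne_zero _ (sub_ne_zero.mpr hx)
  apply mul_right_cancel₀ hx'
  have e3 : (legendre lam).addX x₁ x₂ ((y₁ - y₂) / (x₁ - x₂)) *
      (legendre lam).addX x₁ x₂ ((y₁ - -y₂) / (x₁ - x₂)) * (x₁ - x₂) ^ 2 * (x₁ - x₂) ^ 2 =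
      ((legendre lam).addX x₁ x₂ ((y₁ - y₂) / (x₁ - x₂)) * (x₁ - x₂) ^ 2) *
      ((legendre lam).addX x₁ x₂ ((y₁ - -y₂) / (x₁ - x₂)) * (x₁ - x₂) ^ 2) := by ring
  rw [e3, e1, e2]
  have e4 : (x₁ * x₂ * (x₁ + x₂) - 2 * (1 + lam) * x₁ * x₂ + lam * (x₁ + x₂) - 2 * y₁ * y₂) *
      (x₁ * x₂ * (x₁ + x₂) - 2 * (1 + lam) * x₁ * x₂ + lam * (x₁ + x₂) - 2 * y₁ * -y₂) =
      (x₁ * x₂ * (x₁ + x₂) - 2 * (1 + lam) * x₁ * x₂ + lam * (x₁ + x₂)) ^ 2
        - 4 * (y₁ ^ 2) * (y₂ ^ 2) := by ring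
  rw [e4, h₁, h₂]
  ring

/-- duplication formula -/
theorem addX_self {x y : K} (h : (legendre lam).Equation x y) (hy : y ≠ 0) (h2 : (2 : K) ≠ 0)
    [DecidableEq K] :
    (legendre lam).addX x x ((legendre lam).slope x x y y) * (4 * y ^ 2) =
      (x ^ 2 - lam) ^ 2 := by
  have hy' : y ≠ (legendre lam).negY x y := by
    rw [negY_eq]
    intro h3
    have : 2 * y = 0 := by linear_combination h3
    rcases mul_eq_zero.mp this with h4 | h4
    · exact h2 h4
    · exact hy h4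
  rw [Affine.slope_of_Y_ne rfl hy']
  rw [negY_eq]
  simp only [Affine.addX, legendre]
  rw [equation_iff'] at h
  have h4 : y - -y ≠ 0 := by
    intro h3
    have : 2 * y = 0 := by linear_combination h3
    rcases mul_eq_zero.mp this with h4 | h4
    · exact h2 h4
    · exact hy h4
  have h5 : y - -y = 2 * y := by ring
  rw [h5]
  field_simp
  have h6 : y ^ 2 = x * (x - 1) * (x - lam) := h
  ring_nf
  ring_nf at h6
  rw [show y ^ 2 = x * lam - x ^ 2 - x ^ 2 * lam + x ^ 3 by linear_combination h6]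
  ring

end

section

variable {K : Type*} [Field K] {Γ : Type*} [LinearOrderedCommGroupWithZero Γ]
  (v : Valuation K Γ) {lam : K}

/-- The bound `L = max 1 |lam|`. -/
def LL (lam : K) : Γ := max 1 (v lam)

theorem one_le_LL : 1 ≤ LL v lam := le_max_left _ _

theorem lam_le_LL : v lam ≤ LL v lam := le_max_right _ _

theorem one_add_le : v (1 + lam) ≤ LL v lam := by
  refine (v.map_add _ _).trans ?_
  rw [map_one]
  exact le_rfl

theorem v_nat_le_one (n : ℕ) : v (n : K) ≤ 1 := by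
  induction n with
  | zero => simp
  | succ n ih =>
    push_cast
    exact v.map_add_le ih (by rw [map_one])

theorem v_int_le_one (n : ℤ) : v (n : K) ≤ 1 := by
  rcases Int.eq_nat_or_neg n with ⟨m, rfl | rfl⟩
  · exact_mod_cast v_nat_le_one v m
  · push_cast
    rw [Valuation.map_neg]
    exact v_nat_le_one v m

theorem v_two_le : v (2 : K) ≤ 1 := by exact_mod_cast v_nat_le_one v 2

theorem v_y_sq {x y : K} (h : (legendre lam).Equation x y) (hx : LL v lam < v x) :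
    v y ^ 2 = v x ^ 3 := by
  rw [equation_iff'] at h
  have h1 : v (x - 1) = v x := by
    apply Valuation.map_sub_eq_of_lt_left
    rw [map_one]
    exact (one_le_LL v).trans_lt hx
  have h2 : v (x - lam) = v x :=
    Valuation.map_sub_eq_of_lt_left _ ((lam_le_LL v).trans_lt hx)
  rw [← map_pow, h, map_mul, map_mul, h1, h2]
  simp only [pow_succ, pow_zero, one_mul]

theorem v_y_sq_le {x y : K} (h : (legendre lam).Equation x y) (hx : v x ≤ LL v lam) :
    v y ^ 2 ≤ LL v lam ^ 3 := by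
  rw [equation_iff'] at h
  have h1 : v (x - 1) ≤ LL v lam := by
    apply Valuation.map_sub_le v hx
    rw [map_one]
    exact one_le_LL v
  have h2 : v (x - lam) ≤ LL v lam := Valuation.map_sub_le v hx (lam_le_LL v)
  rw [← map_pow, h, map_mul, map_mul]
  calc v x * v (x - 1) * v (x - lam) ≤ LL v lam * LL v lam * LL v lam := by gcongr
    _ = LL v lam ^ 3 := by simp only [pow_succ, pow_zero, one_mul, mul_one] <;> ac_rfl

/-- addition of a point to a strictly deeper one -/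
theorem v_addX {x₁ y₁ x₂ y₂ : K} (h₁ : (legendre lam).Equation x₁ y₁)
    (h₂ : (legendre lam).Equation x₂ y₂) (hx₂ : LL v lam < v x₂) (hlt : v x₂ < v x₁) :
    v ((legendre lam).addX x₁ x₂ ((y₁ - y₂) / (x₁ - x₂))) = v x₂ := by
  have hx : x₁ ≠ x₂ := fun h => hlt.ne (by rw [h])
  have hx₁ : LL v lam < v x₁ := hx₂.trans hlt
  have e := addX_mul h₁ h₂ hx
  have hL1 : 1 < v x₂ := (one_le_LL v).trans_lt hx₂
  have hp2 : 0 < v x₂ := zero_lt_one.trans hL1
  have hp1 : 0 < v x₁ := hp2.trans hlt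
  have hxx : v (x₁ - x₂) = v x₁ := Valuation.map_sub_eq_of_lt_left _ hlt
  have hN : v (x₁ * x₂ * (x₁ + x₂) - 2 * (1 + lam) * x₁ * x₂ + lam * (x₁ + x₂) - 2 * y₁ * y₂) =
      v x₁ ^ 2 * v x₂ := by
    have e1 : x₁ * x₂ * (x₁ + x₂) - 2 * (1 + lam) * x₁ * x₂ + lam * (x₁ + x₂) - 2 * y₁ * y₂ =
        x₁ ^ 2 * x₂ + (x₁ * x₂ ^ 2 - 2 * (1 + lam) * x₁ * x₂ + lam * (x₁ + x₂) - 2 * y₁ * y₂) := by
      ring
    rw [e1, Valuation.map_add_eq_of_lt_left]
    · rw [map_mul, map_pow]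
    · rw [map_mul, map_pow]
      have a1 : v (x₁ * x₂ ^ 2) < v x₁ ^ 2 * v x₂ := by
        rw [map_mul, map_pow]
        calc v x₁ * v x₂ ^ 2 = (v x₁ * v x₂) * v x₂ := by simp only [pow_succ, pow_zero, one_mul, mul_one] <;> ac_rfl
          _ < (v x₁ * v x₂) * v x₁ := mul_lt_mul_of_pos_left hlt (mul_pos hp1 hp2)
          _ = v x₁ ^ 2 * v x₂ := by simp only [pow_succ, pow_zero, one_mul, mul_one] <;> ac_rfl
      have a2 : v (2 * (1 + lam) * x₁ * x₂) < v x₁ ^ 2 * v x₂ := by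
        rw [map_mul, map_mul, map_mul]
        calc v 2 * v (1 + lam) * v x₁ * v x₂ ≤ 1 * LL v lam * v x₁ * v x₂ := by
              gcongr
              · exact v_two_le v
              · exact one_add_le v
          _ = LL v lam * (v x₁ * v x₂) := by simp only [pow_succ, pow_zero, one_mul, mul_one] <;> ac_rfl
          _ < v x₁ * (v x₁ * v x₂) := mul_lt_mul_of_pos_right hx₁ (mul_pos hp1 hp2)
          _ = v x₁ ^ 2 * v x₂ := by simp only [pow_succ, pow_zero, one_mul, mul_one] <;> ac_rfl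
      have a3 : v (lam * (x₁ + x₂)) < v x₁ ^ 2 * v x₂ := by
        rw [map_mul]
        have : v (x₁ + x₂) = v x₁ := Valuation.map_add_eq_of_lt_left _ hlt
        rw [this]
        calc v lam * v x₁ ≤ LL v lam * v x₁ := by gcongr; exact lam_le_LL v
          _ < v x₂ * v x₁ := mul_lt_mul_of_pos_right hx₂ hp1
          _ = 1 * (v x₂ * v x₁) := by simp only [pow_succ, pow_zero, one_mul, mul_one] <;> ac_rfl
          _ ≤ v x₁ * (v x₂ * v x₁) := by
              gcongr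
              exact (hL1.trans hlt).le
          _ = v x₁ ^ 2 * v x₂ := by simp only [pow_succ, pow_zero, one_mul, mul_one] <;> ac_rfl
      have a4 : v (2 * y₁ * y₂) < v x₁ ^ 2 * v x₂ := by
        rw [map_mul, map_mul]
        have b1 := v_y_sq v h₁ hx₁
        have b2 := v_y_sq v h₂ hx₂
        have b3 : v y₁ * v y₂ < v x₁ ^ 2 * v x₂ := by
          apply lt_of_pow_lt_pow_left₀ 2 zero_le
          calc (v y₁ * v y₂) ^ 2 = v y₁ ^ 2 * v y₂ ^ 2 := by simp only [pow_succ, pow_zero, one_mul, mul_one] <;> ac_rfl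
            _ = (v x₁ ^ 3 * v x₂ ^ 2) * v x₂ := by rw [b1, b2]; simp only [pow_succ, pow_zero, one_mul, mul_one] <;> ac_rfl
            _ < (v x₁ ^ 3 * v x₂ ^ 2) * v x₁ :=
                mul_lt_mul_of_pos_left hlt (mul_pos (pow_pos hp1 3) (pow_pos hp2 2))
            _ = (v x₁ ^ 2 * v x₂) ^ 2 := by simp only [pow_succ, pow_zero, one_mul, mul_one] <;> ac_rfl
        calc v 2 * v y₁ * v y₂ ≤ 1 * v y₁ * v y₂ := by gcongr; exact v_two_le v
          _ = v y₁ * v y₂ := by simp only [pow_succ, pow_zero, one_mul, mul_one] <;> ac_rfl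
          _ < _ := b3
      exact v.map_sub_lt (v.map_add_lt (v.map_sub_lt a1 a2) a3) a4
  have h5 : v ((legendre lam).addX x₁ x₂ ((y₁ - y₂) / (x₁ - x₂))) * v x₁ ^ 2 = v x₁ ^ 2 * v x₂ := by
    rw [← hN, ← e, map_mul, map_pow, hxx]
  have h6 : v x₁ ^ 2 ≠ 0 := pow_ne_zero _ hp1.ne'
  rw [mul_comm] at h5
  exact mul_left_cancel₀ h6 h5

/-- addition of a point outside to a close one -/
theorem v_addX_le {x₁ y₁ x₂ y₂ : K} (h₁ : (legendre lam).Equation x₁ y₁)
    (h₂ : (legendre lam).Equation x₂ y₂) (hx₂ : v x₂ ≤ LL v lam) (hx₁ : LL v lam < v x₁) :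
    v ((legendre lam).addX x₁ x₂ ((y₁ - y₂) / (x₁ - x₂))) ≤ LL v lam := by
  have hlt : v x₂ < v x₁ := hx₂.trans_lt hx₁
  have hx : x₁ ≠ x₂ := fun h => hlt.ne (by rw [h])
  have e := addX_mul h₁ h₂ hx
  have hL1 : 1 < v x₁ := (one_le_LL v).trans_lt hx₁
  have hp1 : 0 < v x₁ := zero_lt_one.trans hL1
  have hLp : 0 < LL v lam := zero_lt_one.trans_le (one_le_LL v)
  have hxx : v (x₁ - x₂) = v x₁ := Valuation.map_sub_eq_of_lt_left _ hlt
  have hxp : v (x₁ + x₂) = v x₁ := Valuation.map_add_eq_of_lt_left _ hlt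
  have hN : v (x₁ * x₂ * (x₁ + x₂) - 2 * (1 + lam) * x₁ * x₂ + lam * (x₁ + x₂) - 2 * y₁ * y₂) ≤
      v x₁ ^ 2 * LL v lam := by
    have a1 : v (x₁ * x₂ * (x₁ + x₂)) ≤ v x₁ ^ 2 * LL v lam := by
      rw [map_mul, map_mul, hxp]
      calc v x₁ * v x₂ * v x₁ ≤ v x₁ * LL v lam * v x₁ := by gcongr
        _ = v x₁ ^ 2 * LL v lam := by simp only [pow_succ, pow_zero, one_mul, mul_one] <;> ac_rfl
    have a2 : v (2 * (1 + lam) * x₁ * x₂) ≤ v x₁ ^ 2 * LL v lam := by
      rw [map_mul, map_mul, map_mul]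
      calc v 2 * v (1 + lam) * v x₁ * v x₂ ≤ 1 * LL v lam * v x₁ * v x₁ := by
            gcongr
            · exact v_two_le v
            · exact one_add_le v
        _ = v x₁ ^ 2 * LL v lam := by simp only [pow_succ, pow_zero, one_mul, mul_one] <;> ac_rfl
    have a3 : v (lam * (x₁ + x₂)) ≤ v x₁ ^ 2 * LL v lam := by
      rw [map_mul, hxp]
      calc v lam * v x₁ ≤ LL v lam * v x₁ := by gcongr; exact lam_le_LL v
        _ = 1 * (v x₁ * LL v lam) := by simp only [pow_succ, pow_zero, one_mul, mul_one] <;> ac_rfl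
        _ ≤ v x₁ * (v x₁ * LL v lam) := by gcongr
        _ = v x₁ ^ 2 * LL v lam := by simp only [pow_succ, pow_zero, one_mul, mul_one] <;> ac_rfl
    have a4 : v (2 * y₁ * y₂) ≤ v x₁ ^ 2 * LL v lam := by
      rw [map_mul, map_mul]
      have b1 := v_y_sq v h₁ hx₁
      have b2 := v_y_sq_le v h₂ hx₂
      have b3 : v y₁ * v y₂ ≤ v x₁ ^ 2 * LL v lam := by
        apply le_of_pow_le_pow_left₀ two_ne_zero zero_le
        calc (v y₁ * v y₂) ^ 2 = v y₁ ^ 2 * v y₂ ^ 2 := by simp only [pow_succ, pow_zero, one_mul, mul_one] <;> ac_rfl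
          _ ≤ v x₁ ^ 3 * LL v lam ^ 3 := by rw [b1]; gcongr
          _ = (v x₁ ^ 3 * LL v lam ^ 2) * LL v lam := by simp only [pow_succ, pow_zero, one_mul, mul_one] <;> ac_rfl
          _ ≤ (v x₁ ^ 3 * LL v lam ^ 2) * v x₁ := by gcongr
          _ = (v x₁ ^ 2 * LL v lam) ^ 2 := by simp only [pow_succ, pow_zero, one_mul, mul_one] <;> ac_rfl
      calc v 2 * v y₁ * v y₂ ≤ 1 * v y₁ * v y₂ := by gcongr; exact v_two_le v
        _ = v y₁ * v y₂ := by simp only [pow_succ, pow_zero, one_mul, mul_one] <;> ac_rfl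
        _ ≤ _ := b3
    exact v.map_sub_le (v.map_add_le (v.map_sub_le a1 a2) a3) a4
  have h5 : v x₁ ^ 2 * v ((legendre lam).addX x₁ x₂ ((y₁ - y₂) / (x₁ - x₂))) ≤
      v x₁ ^ 2 * LL v lam := by
    refine le_trans (le_of_eq ?_) hN
    rw [← e, map_mul, map_pow, hxx, mul_comm]
  exact le_of_mul_le_mul_left h5 (pow_pos hp1 2)

end

end Pool.Agent.Lib.MP_a325a5_ag.Mixed
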