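import Pool.Agent.Lib.MP_a325a5_ag.Mixed.Pt

/-! Multiples of deep points of the Legendre curve at a place above 3. -/

set_option linter.unusedSimpArgs false
set_option linter.unusedTactic false
set_option linter.unreachableTactic false
set_option linter.unnecessarySeqFocus false

namespace Pool.Agent.Lib.MP_a325a5_ag.Mixed

open WeierstrassCurve WeierstrassCurve.Affine

variable {K : Type*} [Field K] {Γ : Type*} [LinearOrderedCommGroupWithZero Γ]
  (v : Valuation K Γ) {lam : K}

theorem v_four (h3 : v 3 < 1) : v (4 : K) = 1 := by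
  have : (4 : K) = 3 + 1 := by norm_num
  rw [this, Valuation.map_add_eq_of_lt_right, map_one]
  rwa [map_one]

theorem two_ne_zero' (h3 : v 3 < 1) : (2 : K) ≠ 0 := by
  intro h
  have h4 : v (4 : K) = 1 := v_four v h3
  have : (4 : K) = 2 * 2 := by norm_num
  rw [this, h] at h4
  simp at h4

variable [DecidableEq K]

theorem dp_three (h3 : v 3 < 1) (h30 : (3 : K) ≠ 0) {P : (legendre lam).Point}
    (hP : Large v P) : Large v (3 • P) ∧ dp v (3 • P) = v 3 ^ 2 * dp v P := by
  cases P with
  | zero =>
    rw [← Point.zero_def, smul_zero]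
    exact ⟨trivial, by rw [dp_zero, mul_zero]⟩
  | some x y h =>
    have hL : LL v lam < v 3 * v x := hP
    have hL' : LL v lam < v x := in1_of_large v hP
    have hL1 : (1 : Γ) < v x := (one_le_LL v).trans_lt hL'
    have hp : (0 : Γ) < v x := zero_lt_one.trans hL1
    have hlamx : v lam < v x := (lam_le_LL v).trans_lt hL'
    have h2 : (2 : K) ≠ 0 := two_ne_zero' v h3
    have hv3 : v (3 : K) ≠ 0 := (Valuation.ne_zero_iff v).mpr h30
    have hv3p : 0 < v (3 : K) := zero_lt_iff.mpr hv3
    have hy2 : v y ^ 2 = v x ^ 3 := v_y_sq v h.1 hL'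
    have hy : y ≠ 0 := by
      intro h0
      rw [h0, map_zero, zero_pow two_ne_zero] at hy2
      exact (pow_ne_zero 3 hp.ne') hy2.symm
    have hyneg : ¬ (x = x ∧ y = (legendre lam).negY x y) := by
      rintro ⟨_, h4⟩
      rw [negY_eq] at h4
      have : 2 * y = 0 := by linear_combination h4
      rcases mul_eq_zero.mp this with h5 | h5
      · exact h2 h5
      · exact hy h5
    have e2 := Point.add_some (W := legendre lam) hyneg (h₁ := h) (h₂ := h)
    have d2 := addX_self h.1 hy h2
    set x2 := (legendre lam).addX x x ((legendre lam).slope x x y y) with hx2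
    set y2 := (legendre lam).addY x x y ((legendre lam).slope x x y y) with hy2'
    have hns2 : (legendre lam).Nonsingular x2 y2 := Affine.nonsingular_add h h hyneg
    have e2' : (Point.some x y h : (legendre lam).Point) + Point.some x y h =
      Point.some x2 y2 hns2 := e2
    have heq := (equation_iff' (lam := lam) x y).mp h.1
    have hv4y : v (4 * y ^ 2) = v x ^ 3 := by
      rw [map_mul, v_four v h3, one_mul, map_pow, hy2]
    have hvx2 : v x2 = v x := by
      have h5 : v x2 * v x ^ 3 = v x * v x ^ 3 := by
        rw [← hv4y, ← map_mul, d2, map_pow]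
        have : v (x ^ 2 - lam) = v x ^ 2 := by
          rw [Valuation.map_sub_eq_of_lt_left, map_pow]
          rw [map_pow]
          calc v lam < v x := hlamx
            _ = 1 * v x := (one_mul _).symm
            _ ≤ v x * v x := by gcongr
            _ = v x ^ 2 := (sq _).symm
        rw [this, hv4y]
        simp only [pow_succ, pow_zero, one_mul, mul_one] <;> ac_rfl
      exact mul_right_cancel₀ (pow_ne_zero 3 hp.ne') h5
    have hdiff : (x2 - x) * (4 * y ^ 2) =
        -(3 * x ^ 4 + (-(4 * (1 + lam) * x ^ 3) + 6 * lam * x ^ 2 - lam ^ 2)) := by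
      have : (x2 - x) * (4 * y ^ 2) = x2 * (4 * y ^ 2) - 4 * x * y ^ 2 := by ring
      rw [this, d2, heq]
      ring
    have hvdiff : v (x2 - x) = v 3 * v x := by
      have h6 : v (3 * x ^ 4 + (-(4 * (1 + lam) * x ^ 3) + 6 * lam * x ^ 2 - lam ^ 2)) =
          v 3 * v x ^ 4 := by
        rw [Valuation.map_add_eq_of_lt_left]
        · rw [map_mul, map_pow]
        · rw [map_mul, map_pow]
          have a1 : v (-(4 * (1 + lam) * x ^ 3)) < v 3 * v x ^ 4 := by
            rw [Valuation.map_neg, map_mul, map_mul, v_four v h3, one_mul, map_pow]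
            calc v (1 + lam) * v x ^ 3 ≤ LL v lam * v x ^ 3 := by
                  gcongr
                  exact one_add_le v
              _ < (v 3 * v x) * v x ^ 3 := mul_lt_mul_of_pos_right hL (pow_pos hp 3)
              _ = v 3 * v x ^ 4 := by
                simp only [pow_succ, pow_zero, one_mul, mul_one] <;> ac_rfl
          have a2 : v (6 * lam * x ^ 2) < v 3 * v x ^ 4 := by
            have : (6 : K) * lam * x ^ 2 = 3 * (2 * lam * x ^ 2) := by ring
            rw [this, map_mul]
            refine mul_lt_mul_of_pos_left ?_ hv3p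
            rw [map_mul, map_mul, map_pow]
            calc v 2 * v lam * v x ^ 2 ≤ 1 * v lam * v x ^ 2 := by
                  gcongr
                  exact v_two_le v
              _ = v lam * v x ^ 2 := by rw [one_mul]
              _ < v x * v x ^ 2 := mul_lt_mul_of_pos_right hlamx (pow_pos hp 2)
              _ ≤ v x ^ 2 * v x ^ 2 := by
                  gcongr
                  calc v x = 1 * v x := (one_mul _).symm
                    _ ≤ v x * v x := by gcongr
                    _ = v x ^ 2 := (sq _).symm
              _ = v x ^ 4 := by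
                simp only [pow_succ, pow_zero, one_mul, mul_one] <;> ac_rfl
          have a3 : v (lam ^ 2) < v 3 * v x ^ 4 := by
            rw [map_pow]
            calc v lam ^ 2 = v lam * v lam := sq _
              _ ≤ LL v lam * v x := by
                  gcongr
                  exact lam_le_LL v
              _ < (v 3 * v x) * v x := mul_lt_mul_of_pos_right hL hp
              _ ≤ (v 3 * v x) * v x ^ 3 := by
                  gcongr
                  calc v x = 1 * 1 * v x := by rw [one_mul, one_mul]
                    _ ≤ v x * v x * v x := by gcongr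
                    _ = v x ^ 3 := by
                      simp only [pow_succ, pow_zero, one_mul, mul_one] <;> ac_rfl
              _ = v 3 * v x ^ 4 := by
                simp only [pow_succ, pow_zero, one_mul, mul_one] <;> ac_rfl
          exact v.map_sub_lt (v.map_add_lt a1 a2) a3
      have h7 : v (x2 - x) * v x ^ 3 = (v 3 * v x) * v x ^ 3 := by
        rw [← hv4y, ← map_mul, hdiff, Valuation.map_neg, h6, hv4y]
        simp only [pow_succ, pow_zero, one_mul, mul_one] <;> ac_rfl
      exact mul_right_cancel₀ (pow_ne_zero 3 hp.ne') h7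
    have hne : x2 ≠ x := by
      intro h8
      rw [h8, sub_self, map_zero] at hvdiff
      exact (mul_ne_zero hv3 hp.ne') hvdiff.symm
    have hcond : ¬ (x2 = x ∧ y2 = (legendre lam).negY x y) := fun h => hne h.1
    have e3 := Point.add_some (W := legendre lam) hcond (h₁ := hns2) (h₂ := h)
    have hneg' : (legendre lam).Nonsingular x ((legendre lam).negY x y) :=
      (Affine.nonsingular_neg _ _).mpr h
    have hcond' : ¬ (x2 = x ∧ y2 = (legendre lam).negY x ((legendre lam).negY x y)) :=
      fun h => hne h.1
    have e4 := Point.add_some (W := legendre lam) hcond' (h₁ := hns2) (h₂ := hneg')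
    have e5 : (Point.some x2 y2 hns2 : (legendre lam).Point) +
        Point.some x ((legendre lam).negY x y) hneg' = Point.some x y h := by
      rw [← e2']
      have : (Point.some x ((legendre lam).negY x y) hneg' : (legendre lam).Point) =
        -Point.some x y h := rfl
      rw [this, add_neg_cancel_right]
    rw [e4] at e5
    injection e5 with e6 _
    rw [Affine.slope_of_X_ne hne, negY_eq] at e6
    have hprod := addX_mul_addX (lam := lam) hns2.1 h.1 hne
    rw [e6, ← Affine.slope_of_X_ne (W := legendre lam) hne] at hprod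
    set x3 := (legendre lam).addX x2 x ((legendre lam).slope x2 x y2 y) with hx3
    have hv := congrArg v hprod
    rw [map_mul, map_mul, map_pow, map_pow, hvdiff] at hv
    have hv' : v (x2 * x - lam) = v x ^ 2 := by
      rw [Valuation.map_sub_eq_of_lt_left, map_mul, hvx2, sq]
      rw [map_mul, hvx2]
      calc v lam < v x := hlamx
        _ = 1 * v x := (one_mul _).symm
        _ ≤ v x * v x := by gcongr
    rw [hv'] at hv
    have hvx3 : v x3 * v 3 ^ 2 = v x := by
      have h9 : (v x3 * v 3 ^ 2) * v x ^ 3 = v x * v x ^ 3 := by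
        calc (v x3 * v 3 ^ 2) * v x ^ 3 = v x3 * v x * (v 3 * v x) ^ 2 := by
              simp only [pow_succ, pow_zero, one_mul, mul_one] <;> ac_rfl
          _ = (v x ^ 2) ^ 2 := hv
          _ = v x * v x ^ 3 := by
              simp only [pow_succ, pow_zero, one_mul, mul_one] <;> ac_rfl
      exact mul_right_cancel₀ (pow_ne_zero 3 hp.ne') h9
    have e7 : (3 : ℕ) • (Point.some x y h : (legendre lam).Point) =
        Point.some x2 y2 hns2 + Point.some x y h := by
      rw [← e2', succ_nsmul, two_nsmul]
    have hx3p : 0 < v x3 := by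
      rw [zero_lt_iff]
      intro h0
      rw [h0, zero_mul] at hvx3
      exact hp.ne' hvx3.symm
    rw [e7, e3]
    constructor
    · show LL v lam < v 3 * v x3
      refine lt_of_lt_of_le hL ?_
      gcongr
      rw [← hvx3]
      calc v x3 * v 3 ^ 2 ≤ v x3 * 1 := by
            gcongr
            exact pow_le_one₀ zero_le h3.le
        _ = v x3 := mul_one _
    · show (v x3)⁻¹ = v 3 ^ 2 * (v x)⁻¹
      rw [← hvx3, mul_inv, mul_comm (v x3)⁻¹, ← mul_assoc, mul_inv_cancel₀ (pow_ne_zero 2 hv3),
        one_mul]

omit [DecidableEq K] in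
theorem large_of_dp_le {P Q : (legendre lam).Point} (hP : Large v P) (hP0 : P ≠ 0)
    (hQ : In1 v Q) (hle : dp v Q ≤ dp v P) : Large v Q := by
  cases Q with
  | zero => trivial
  | some x₂ y₂ h₂ =>
    cases P with
    | zero => exact absurd rfl hP0
    | some x₁ y₁ h₁ =>
      have hP' : LL v lam < v 3 * v x₁ := hP
      have hQ' : LL v lam < v x₂ := hQ
      have hP1 : LL v lam < v x₁ := in1_of_large v hP
      have hp1 : (0 : Γ) < v x₁ := lt_of_le_of_lt zero_le hP1
      have hp2 : (0 : Γ) < v x₂ := lt_of_le_of_lt zero_le hQ'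
      have hle' : v x₁ ≤ v x₂ := (inv_le_inv₀ hp2 hp1).mp hle
      show LL v lam < v 3 * v x₂
      refine lt_of_lt_of_le hP' ?_
      gcongr

theorem dp_nsmul (h3 : v 3 < 1) (h30 : (3 : K) ≠ 0) {P : (legendre lam).Point}
    (hP : Large v P) (m : ℕ) : Large v (m • P) ∧ dp v (m • P) = v (m : K) ^ 2 * dp v P := by
  have hv3 : v (3 : K) ≠ 0 := (Valuation.ne_zero_iff v).mpr h30
  rcases eq_or_ne P 0 with rfl | hP0
  · rw [smul_zero, dp_zero, mul_zero]
    exact ⟨trivial, rfl⟩
  have hdp : dp v P ≠ 0 := dp_ne_zero v (in1_of_large v hP) hP0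
  have hdpp : 0 < dp v P := zero_lt_iff.mpr hdp
  have key : ∀ j : ℕ, (Large v (j • P) ∧ dp v (j • P) = v (j : K) ^ 2 * dp v P) →
      Large v ((3 * j) • P) ∧ dp v ((3 * j) • P) = v ((3 * j : ℕ) : K) ^ 2 * dp v P ∧
        dp v ((3 * j) • P) < dp v P := by
    intro j hj
    obtain ⟨h1, h2⟩ := dp_three v h3 h30 hj.1
    rw [mul_smul]
    refine ⟨h1, ?_, ?_⟩
    · rw [h2, hj.2]
      push_cast
      rw [map_mul, mul_pow, mul_assoc]
    · rw [h2, hj.2]
      calc v 3 ^ 2 * (v (j : K) ^ 2 * dp v P) ≤ v 3 ^ 2 * (1 * dp v P) := by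
            gcongr
            exact pow_le_one₀ zero_le (v_nat_le_one v j)
        _ = v 3 ^ 2 * dp v P := by rw [one_mul]
        _ < 1 * dp v P := mul_lt_mul_of_pos_right (pow_lt_one₀ zero_le h3 two_ne_zero) hdpp
        _ = dp v P := one_mul _
  have hunit : ∀ j : ℕ, v (((3 * j : ℕ) : K)) < 1 := by
    intro j
    push_cast
    rw [map_mul]
    calc v 3 * v (j : K) ≤ v 3 * 1 := by
          gcongr
          exact v_nat_le_one v j
      _ = v 3 := mul_one _
      _ < 1 := h3
  induction m using Nat.strong_induction_on with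
  | _ m ih =>
    obtain ⟨k, hk⟩ : ∃ k, m = 3 * k ∨ m = 3 * k + 1 ∨ m = 3 * k + 2 := ⟨m / 3, by omega⟩
    rcases hk with hk | hk | hk
    · rcases Nat.eq_zero_or_pos k with hk0 | hk0
      · have hm0 : m = 0 := by omega
        rw [hm0, zero_smul, dp_zero]
        refine ⟨trivial, ?_⟩
        simp
      · obtain ⟨h1, h2, _⟩ := key k (ih k (by omega))
        rw [hk]
        exact ⟨h1, h2⟩
    · obtain ⟨h1, h2, h4⟩ := key k (by
        rcases Nat.eq_zero_or_pos k with hk0 | hk0
        · rw [hk0, zero_smul, dp_zero]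
          exact ⟨trivial, by simp⟩
        · exact ih k (by omega))
      have h5 := add_of_lt v (in1_of_large v h1) (in1_of_large v hP) h4
      have h6 : m • P = (3 * k) • P + P := by rw [hk, succ_nsmul]
      have h7 : v (m : K) = 1 := by
        rw [hk]
        push_cast
        rw [Valuation.map_add_eq_of_lt_right]
        · rw [map_one]
        · rw [map_one]
          have := hunit k
          push_cast at this
          exact this
      rw [h6, h7, one_pow, one_mul]
      exact ⟨large_of_dp_le v hP hP0 h5.1 h5.2.le, h5.2⟩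
    · obtain ⟨h1, h2, h4⟩ := key (k + 1) (ih (k + 1) (by omega))
      have h5 := add_of_lt v (in1_of_large v h1) (in1_neg v (in1_of_large v hP))
        (by rw [dp_neg]; exact h4)
      have h6 : m • P = (3 * (k + 1)) • P + -P := by
        have : 3 * (k + 1) = m + 1 := by omega
        rw [this, succ_nsmul, add_neg_cancel_right]
      have h7 : v (m : K) = 1 := by
        have h8 : (m : K) = ((3 * (k + 1) : ℕ) : K) - 1 := by
          have : 3 * (k + 1) = m + 1 := by omega
          rw [this]
          push_cast
          ring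
        rw [h8, Valuation.map_sub_eq_of_lt_right, map_one]
        rw [map_one]
        exact hunit (k + 1)
      rw [h6, h7, one_pow, one_mul]
      rw [dp_neg] at h5
      exact ⟨large_of_dp_le v hP hP0 h5.1 h5.2.le, h5.2⟩

theorem dp_zsmul (h3 : v 3 < 1) (h30 : (3 : K) ≠ 0) {P : (legendre lam).Point}
    (hP : Large v P) (m : ℤ) : Large v (m • P) ∧ dp v (m • P) = v (m : K) ^ 2 * dp v P := by
  rcases Int.eq_nat_or_neg m with ⟨k, rfl | rfl⟩
  · rw [natCast_zsmul]
    push_cast
    exact dp_nsmul v h3 h30 hP k
  · rw [neg_smul, natCast_zsmul, dp_neg]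
    push_cast
    rw [Valuation.map_neg]
    obtain ⟨h1, h2⟩ := dp_nsmul v h3 h30 hP k
    exact ⟨large_neg v h1, h2⟩

omit [DecidableEq K] in
theorem v_nat_eq (h3 : v 3 < 1) (m : ℕ) (hm : m ≠ 0) : ∃ g : ℕ, v (m : K) = v 3 ^ g := by
  obtain ⟨g, q, hq, hmq⟩ := Nat.exists_eq_pow_mul_and_not_dvd hm 3 (by norm_num)
  refine ⟨g, ?_⟩
  have h31 : ∀ j : ℕ, v ((3 * j : ℕ) : K) < 1 := by
    intro j
    push_cast
    rw [map_mul]
    calc v 3 * v (j : K) ≤ v 3 * 1 := by
          gcongr
          exact v_nat_le_one v j
      _ = v 3 := mul_one _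
      _ < 1 := h3
  have hq1 : v (q : K) = 1 := by
    obtain ⟨j, hj | hj⟩ : ∃ j, q = 3 * j + 1 ∨ q + 1 = 3 * j := by
      rcases (by omega : q % 3 = 1 ∨ q % 3 = 2) with h | h
      · exact ⟨q / 3, by omega⟩
      · exact ⟨q / 3 + 1, by omega⟩
    · rw [hj, Nat.cast_add, Nat.cast_one, Valuation.map_add_eq_of_lt_right, map_one]
      rw [map_one]
      exact h31 j
    · have h8 : (q : K) = ((3 * j : ℕ) : K) - 1 := by
        rw [← hj]
        push_cast
        ring
      rw [h8, Valuation.map_sub_eq_of_lt_right, map_one]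
      rw [map_one]
      exact h31 j
  rw [hmq]
  push_cast
  rw [map_mul, map_pow, hq1, mul_one]

omit [DecidableEq K] in
/-- The value of an integer is a power of the value of 3. -/
theorem v_int_eq (h3 : v 3 < 1) (m : ℤ) (hm : m ≠ 0) : ∃ g : ℕ, v (m : K) = v 3 ^ g := by
  rcases Int.eq_nat_or_neg m with ⟨k, rfl | rfl⟩
  · exact_mod_cast v_nat_eq v h3 k (by omega)
  · push_cast
    rw [Valuation.map_neg]
    exact v_nat_eq v h3 k (by omega)

end Pool.Agent.Lib.MP_a325a5_ag.Mixed
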