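import Mathlib

/-! Valuation rings of an extension field with infinitely large elements. -/

namespace Pool.Agent.Lib.MP_a325a5_ag.Mixed

open Polynomial

/-- A valuation ring of the base extends to a valuation ring of the extension for which a given
transcendental element is larger than all elements of the base. -/
theorem exists_infinite {k K : Type*} [Field k] [Field K] [Algebra k K] (R : ValuationSubring k)
    (t : K) (ht : Transcendental k t) :
    ∃ A : ValuationSubring K, (∀ c : k, algebraMap k K c ∈ A ↔ c ∈ R) ∧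
      ∀ c : k, A.valuation (algebraMap k K c) < A.valuation t := by
  classical
  have ht0 : t ≠ 0 := by
    rintro rfl
    exact ht isAlgebraic_zero
  let B : Subring k[X] := R.toSubring.comap (evalRingHom 0)
  have hB : ∀ f : k[X], f ∈ B ↔ f.eval 0 ∈ R := fun f => Iff.rfl
  let ev : B →+* R := ((evalRingHom (0 : k)).comp B.subtype).codRestrict R.toSubring
    (fun f => f.2)
  have hev : ∀ f : B, ((ev f : R) : k) = (f : k[X]).eval 0 := fun f => rfl
  let φ : B →+* IsLocalRing.ResidueField R := (IsLocalRing.residue R).comp ev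
  let P : Ideal B := RingHom.ker φ
  have hP : P.IsPrime := RingHom.ker_isPrime φ
  let ψ : B →+* K := ((aeval (R := k) t⁻¹ : k[X] →ₐ[k] K) : k[X] →+* K).comp B.subtype
  have hψ' : ∀ f : B, ψ f = aeval t⁻¹ (f : k[X]) := fun f => rfl
  have ht' : Transcendental k t⁻¹ := by
    intro h
    exact ht (by simpa using h.inv)
  have hψ : ∀ f : B, ψ f = 0 → f = 0 := by
    intro f hf
    rw [hψ'] at hf
    have := (transcendental_iff.mp ht') _ hf
    exact Subtype.ext this
  let F : Localization.AtPrime P →+* K := IsLocalization.lift (M := P.primeCompl) (g := ψ) (by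
    intro q
    refine isUnit_iff_ne_zero.mpr fun h => ?_
    have := hψ _ h
    exact q.2 (by rw [this]; exact P.zero_mem))
  have hF : ∀ q, F (algebraMap _ _ q) = ψ q := fun q => IsLocalization.lift_eq _ q
  obtain ⟨A, hA, hloc⟩ := IsLocalRing.exists_factor_valuationRing (R := Localization.AtPrime P) F
  have hmem : ∀ q : B, ψ q ∈ A := by
    intro q
    rw [← hF]
    exact hA _
  have hunit : ∀ q : B, A.valuation (ψ q) = 1 ↔ q ∉ P := by
    intro q
    have hval : A.valuation (ψ q) = A.valuation ((F.codRestrict A.toSubring hA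
        (algebraMap _ _ q) : A) : K) := by
      show A.valuation (ψ q) = A.valuation (F (algebraMap _ _ q))
      rw [hF]
    rw [hval, ← A.valuation_eq_one_iff]
    constructor
    · intro hu
      have h1 := hloc.map_nonunit _ hu
      exact (IsLocalization.AtPrime.isUnit_to_map_iff _ P q).mp h1
    · intro hq
      exact ((IsLocalization.AtPrime.isUnit_to_map_iff _ P q).mpr hq).map _
  have hlt : ∀ q : B, q ∈ P → A.valuation (ψ q) < 1 := by
    intro q hq
    refine lt_of_le_of_ne ((A.valuation_le_one_iff _).mpr (hmem q)) fun h => ?_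
    exact (hunit q).mp h hq
  have hCmem : ∀ c : k, c ∈ R → (C c : k[X]) ∈ B := by
    intro c hc
    rw [hB, eval_C]
    exact hc
  have hψC : ∀ (c : k) (hc : (C c : k[X]) ∈ B), ψ ⟨C c, hc⟩ = algebraMap k K c := by
    intro c hc
    rw [hψ', aeval_C]
  refine ⟨A, fun c => ⟨fun h => ?_, fun h => ?_⟩, fun c => ?_⟩
  · by_contra hcR
    have hc0 : c ≠ 0 := by
      rintro rfl
      exact hcR R.zero_mem
    have h1 : c⁻¹ ∈ R := (R.mem_or_inv_mem c).resolve_left hcR
    have h2 : (⟨C c⁻¹, hCmem _ h1⟩ : B) ∈ P := by
      show φ _ = 0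
      show IsLocalRing.residue R (ev _) = 0
      rw [IsLocalRing.residue_eq_zero_iff, IsLocalRing.mem_maximalIdeal, mem_nonunits_iff]
      intro hu
      obtain ⟨w, hw⟩ := hu.exists_right_inv
      have h3 : ((ev ⟨C c⁻¹, hCmem _ h1⟩ : R) : k) * (w : k) = 1 := by
        exact_mod_cast congrArg (Subtype.val) hw
      rw [hev] at h3
      have h4 : (w : k) = c := by
        simp only [eval_C] at h3
        field_simp at h3
        exact h3
      exact hcR (h4 ▸ w.2)
    have h3 := hlt _ h2
    rw [hψC] at h3
    have h4 : A.valuation (algebraMap k K c) ≤ 1 := (A.valuation_le_one_iff _).mpr h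
    rw [map_inv₀, map_inv₀] at h3
    have h5 : A.valuation (algebraMap k K c) ≠ 0 := by
      rw [Valuation.ne_zero_iff]
      exact (_root_.map_ne_zero _).mpr hc0
    have h6 : (1 : A.ValueGroup) < A.valuation (algebraMap k K c) := by
      exact (inv_lt_one₀ (zero_lt_iff.mpr h5)).mp h3
    exact absurd h4 (not_le.mpr h6)
  · have := hmem ⟨C c, hCmem c h⟩
    rwa [hψC] at this
  · have h1 : (C c * X : k[X]) ∈ B := by
      rw [hB]
      simp only [eval_mul, eval_C, eval_X, mul_zero]
      exact R.zero_mem
    have h2 : (⟨C c * X, h1⟩ : B) ∈ P := by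
      show IsLocalRing.residue R (ev _) = 0
      have : ev ⟨C c * X, h1⟩ = 0 := by
        apply Subtype.ext
        rw [hev]
        simp
      rw [this, map_zero]
    have h3 := hlt _ h2
    have h4 : ψ ⟨C c * X, h1⟩ = algebraMap k K c * t⁻¹ := by
      rw [hψ']
      simp
    rw [h4, map_mul, map_inv₀] at h3
    have h5 : A.valuation t ≠ 0 := (Valuation.ne_zero_iff _).mpr ht0
    calc A.valuation (algebraMap k K c) = A.valuation (algebraMap k K c) * (A.valuation t)⁻¹ *
          A.valuation t := by rw [mul_assoc, inv_mul_cancel₀ h5, mul_one]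
      _ < 1 * A.valuation t := mul_lt_mul_of_pos_right h3 (zero_lt_iff.mpr h5)
      _ = A.valuation t := one_mul _

/-- A valuation ring of the base extends to a valuation ring of the extension. -/
theorem exists_extension {k K : Type*} [Field k] [Field K] [Algebra k K]
    (R : ValuationSubring k) :
    ∃ A : ValuationSubring K, ∀ c : k, algebraMap k K c ∈ A ↔ c ∈ R := by
  let F : R →+* K := (algebraMap k K).comp R.subtype
  obtain ⟨A, hA, hloc⟩ := IsLocalRing.exists_factor_valuationRing (R := R) F
  refine ⟨A, fun c => ⟨fun h => ?_, fun h => hA ⟨c, h⟩⟩⟩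
  by_contra hcR
  have hc0 : c ≠ 0 := by
    rintro rfl
    exact hcR R.zero_mem
  have h1 : c⁻¹ ∈ R := (R.mem_or_inv_mem c).resolve_left hcR
  have h2 : ¬ IsUnit (⟨c⁻¹, h1⟩ : R) := by
    intro hu
    obtain ⟨w, hw⟩ := hu.exists_right_inv
    have h3 : c⁻¹ * (w : k) = 1 := congrArg (Subtype.val) hw
    have h4 : (w : k) = c := by
      field_simp at h3
      exact h3
    exact hcR (h4 ▸ w.2)
  apply h2
  apply hloc.map_nonunit
  have h5 : algebraMap k K c * algebraMap k K c⁻¹ = 1 := by
    rw [← map_mul, mul_inv_cancel₀ hc0, map_one]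
  have h6 : (⟨algebraMap k K c, h⟩ : A) * (F.codRestrict A.toSubring hA ⟨c⁻¹, h1⟩ : A) = 1 := by
    apply Subtype.ext
    exact h5
  exact IsUnit.of_mul_eq_one_right _ h6

theorem valuation_lt_iff {K : Type*} [Field K] (A : ValuationSubring K) {a b : K} (ha : a ≠ 0) :
    A.valuation a < A.valuation b ↔ b / a ∉ A := by
  rw [← A.valuation_le_one_iff, not_le, map_div₀]
  have h : A.valuation a ≠ 0 := (Valuation.ne_zero_iff _).mpr ha
  rw [lt_div_iff₀ (zero_lt_iff.mpr h), one_mul]

open scoped IntermediateField.algebraAdjoinAdjoin in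
/-- A valuation ring of the base extends to a valuation ring of the extension for which given
algebraically independent elements are infinitely large and of increasing order of magnitude. -/
theorem exists_place {k K : Type*} [Field k] [Field K] [Algebra k K] (R : ValuationSubring k)
    (D : ℕ) (t : Fin D → K) (ht : AlgebraicIndependent k t) :
    ∃ A : ValuationSubring K, (∀ c : k, algebraMap k K c ∈ A ↔ c ∈ R) ∧
      (∀ j, ∀ c : k, A.valuation (algebraMap k K c) < A.valuation (t j)) ∧
      ∀ i j, i < j → ∀ m : ℕ, A.valuation (t i) ^ m < A.valuation (t j) := by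
  induction D with
  | zero =>
    obtain ⟨A, hA⟩ := exists_extension (K := K) R
    exact ⟨A, hA, fun j => j.elim0, fun i => i.elim0⟩
  | succ D ih =>
    obtain ⟨A', h1, h2, h3⟩ := ih (fun i => t i.castSucc) (ht.comp _ (Fin.castSucc_injective D))
    let S : Set K := t '' {i | i ≠ Fin.last D}
    let k' := IntermediateField.adjoin k S
    have htr : Transcendental (Algebra.adjoin k S) (t (Fin.last D)) :=
      ht.transcendental_adjoin (by simp)
    have htr' : Transcendental k' (t (Fin.last D)) :=
      (Algebra.IsAlgebraic.transcendental_iff (Algebra.adjoin k S) k').mp htr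
    obtain ⟨A, g1, g2⟩ := exists_infinite (k := k') (K := K) (A'.comap (algebraMap k' K)) _ htr'
    have key : ∀ a b : k', A.valuation (a : K) < A.valuation (b : K) ↔
        A'.valuation (a : K) < A'.valuation (b : K) := by
      intro a b
      rcases eq_or_ne a 0 with rfl | ha
      · have : ((0 : k') : K) = 0 := rfl
        rw [this, map_zero, map_zero, zero_lt_iff, zero_lt_iff, Valuation.ne_zero_iff,
          Valuation.ne_zero_iff]
      · have ha' : (a : K) ≠ 0 := by
          intro h
          exact ha (Subtype.ext h)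
        rw [valuation_lt_iff A ha', valuation_lt_iff A' ha']
        exact not_congr (g1 (b / a))
    have hS : ∀ i : Fin D, t i.castSucc ∈ k' := fun i =>
      IntermediateField.subset_adjoin k S ⟨i.castSucc, (Fin.castSucc_lt_last i).ne, rfl⟩
    have hk : ∀ c : k, ((algebraMap k k' c : k') : K) = algebraMap k K c := fun c => rfl
    refine ⟨A, fun c => ?_, fun j c => ?_, fun i j hij m => ?_⟩
    · rw [← h1 c]
      exact g1 (algebraMap k k' c)
    · refine Fin.lastCases ?_ (fun j => ?_) j
      · exact g2 (algebraMap k k' c)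
      · exact (key (algebraMap k k' c) ⟨t j.castSucc, hS j⟩).mpr (h2 j c)
    · obtain ⟨i, rfl⟩ : ∃ i' : Fin D, i = i'.castSucc := by
        refine ⟨i.castPred ?_, ?_⟩
        · intro h
          rw [h] at hij
          exact absurd hij (not_lt.mpr (Fin.le_last j))
        · simp
      rw [← map_pow]
      revert hij
      refine Fin.lastCases (fun _ => ?_) (fun j hij => ?_) j
      · exact g2 ⟨t i.castSucc ^ m, pow_mem (hS i) m⟩
      · refine (key ⟨t i.castSucc ^ m, pow_mem (hS i) m⟩ ⟨t j.castSucc, hS j⟩).mpr ?_
        show A'.valuation (t i.castSucc ^ m) < A'.valuation (t j.castSucc)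
        rw [map_pow]
        exact h3 i j (Fin.castSucc_lt_castSucc_iff.mp hij) m

end Pool.Agent.Lib.MP_a325a5_ag.Mixed
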