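import Pool.Agent.Lib.MP_a325a5_ag.Mixed.Leg

/-! Depth of points of the Legendre curve over a valued field. -/

set_option linter.unusedSimpArgs false
set_option linter.unusedTactic false
set_option linter.unreachableTactic false
set_option linter.unnecessarySeqFocus false

namespace Pool.Agent.Lib.MP_a325a5_ag.Mixed

open WeierstrassCurve WeierstrassCurve.Affine

variable {K : Type*} [Field K] {Γ : Type*} [LinearOrderedCommGroupWithZero Γ]
  (v : Valuation K Γ) {lam : K}

/-- `1/|x(P)|`, and `0` at the origin. -/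
noncomputable def dp : (legendre lam).Point → Γ
  | .zero => 0
  | .some x _ _ => (v x)⁻¹

/-- The points with `L < |x|`, and the origin. -/
def In1 : (legendre lam).Point → Prop
  | .zero => True
  | .some x _ _ => LL v lam < v x

/-- The points with `L < |3 x|`, and the origin. -/
def Large : (legendre lam).Point → Prop
  | .zero => True
  | .some x _ _ => LL v lam < v 3 * v x

theorem dp_zero : dp v (0 : (legendre lam).Point) = 0 := rfl

theorem in1_zero : In1 v (0 : (legendre lam).Point) := trivial

theorem large_zero : Large v (0 : (legendre lam).Point) := trivial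

theorem in1_of_large {P : (legendre lam).Point} (h : Large v P) : In1 v P := by
  cases P with
  | zero => trivial
  | some x y hxy =>
    refine lt_of_lt_of_le (show LL v lam < v 3 * v x from h) ?_
    calc v 3 * v x ≤ 1 * v x := by
          gcongr
          exact_mod_cast v_nat_le_one v 3
      _ = v x := one_mul _

theorem in1_neg {P : (legendre lam).Point} (h : In1 v P) : In1 v (-P) := by
  cases P with
  | zero => trivial
  | some x y hxy => exact h

theorem large_neg {P : (legendre lam).Point} (h : Large v P) : Large v (-P) := by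
  cases P with
  | zero => trivial
  | some x y hxy => exact h

theorem dp_neg (P : (legendre lam).Point) : dp v (-P) = dp v P := by
  cases P with
  | zero => rfl
  | some x y hxy => rfl

theorem dp_ne_zero {P : (legendre lam).Point} (h : In1 v P) (h0 : P ≠ 0) : dp v P ≠ 0 := by
  cases P with
  | zero => exact absurd rfl h0
  | some x y hxy =>
    have h1 : (0 : Γ) < v x := lt_of_le_of_lt zero_le (show LL v lam < v x from h)
    exact inv_ne_zero h1.ne'

variable [DecidableEq K]

theorem add_of_lt {P Q : (legendre lam).Point} (hP : In1 v P) (hQ : In1 v Q)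
    (hlt : dp v P < dp v Q) : In1 v (P + Q) ∧ dp v (P + Q) = dp v Q := by
  cases P with
  | zero =>
    rw [← Point.zero_def, zero_add]
    exact ⟨hQ, rfl⟩
  | some x₁ y₁ h₁ =>
    cases Q with
    | zero => exact absurd hlt not_lt_zero
    | some x₂ y₂ h₂ =>
      have hP' : LL v lam < v x₁ := hP
      have hQ' : LL v lam < v x₂ := hQ
      have hp1 : (0 : Γ) < v x₁ := lt_of_le_of_lt zero_le hP'
      have hp2 : (0 : Γ) < v x₂ := lt_of_le_of_lt zero_le hQ'
      have hlt' : v x₂ < v x₁ := (inv_lt_inv₀ hp1 hp2).mp hlt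
      have hx : x₁ ≠ x₂ := fun h => hlt'.ne (by rw [h])
      rw [Point.add_some (fun h => hx h.1)]
      have e : (legendre lam).slope x₁ x₂ y₁ y₂ = (y₁ - y₂) / (x₁ - x₂) :=
        Affine.slope_of_X_ne hx
      have h3 := v_addX v h₁.1 h₂.1 hQ' hlt'
      rw [← e] at h3
      constructor
      · show LL v lam < v _
        rw [h3]
        exact hQ'
      · show (v _)⁻¹ = (v x₂)⁻¹
        rw [h3]

theorem not_in1_add {P Q : (legendre lam).Point} (hP : ¬ In1 v P) (hQ : In1 v Q) :
    ¬ In1 v (P + Q) := by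
  cases Q with
  | zero =>
    rw [← Point.zero_def, add_zero]
    exact hP
  | some x₂ y₂ h₂ =>
    cases P with
    | zero => exact absurd trivial hP
    | some x₁ y₁ h₁ =>
      have hP' : v x₁ ≤ LL v lam := not_lt.mp hP
      have hQ' : LL v lam < v x₂ := hQ
      have hlt' : v x₁ < v x₂ := hP'.trans_lt hQ'
      have hx : x₂ ≠ x₁ := fun h => hlt'.ne (by rw [h])
      rw [add_comm, Point.add_some (fun h => hx h.1)]
      have e : (legendre lam).slope x₂ x₁ y₂ y₁ = (y₂ - y₁) / (x₂ - x₁) :=
        Affine.slope_of_X_ne hx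
      have h3 := v_addX_le v h₂.1 h₁.1 hP' hQ'
      rw [← e] at h3
      exact not_lt.mpr h3

theorem add_in1 {P Q : (legendre lam).Point} (hP : In1 v P) (hQ : In1 v Q) :
    In1 v (P + Q) := by
  by_contra h
  have := not_in1_add v h (in1_neg v hQ)
  rw [add_neg_cancel_right] at this
  exact this hP

theorem dp_add_le {P Q : (legendre lam).Point} (hP : In1 v P) (hQ : In1 v Q) :
    dp v (P + Q) ≤ max (dp v P) (dp v Q) := by
  rcases lt_trichotomy (dp v P) (dp v Q) with h | h | h
  · rw [(add_of_lt v hP hQ h).2]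
    exact le_max_right _ _
  · by_contra hcon
    have hcon' := not_le.mp hcon
    rw [h, max_self] at hcon'
    have h1 := add_of_lt v (in1_neg v hQ) (add_in1 v hP hQ) (by rw [dp_neg]; exact hcon')
    rw [neg_add_eq_sub, add_sub_cancel_right, h] at h1
    exact hcon'.ne h1.2
  · rw [add_comm, (add_of_lt v hQ hP h).2]
    exact le_max_left _ _

/-- a sum of points of pairwise different depth is not zero -/
theorem exists_dp_sum {ι : Type*} [DecidableEq ι] (s : Finset ι) (hs : s.Nonempty)
    (P : ι → (legendre lam).Point) (h1 : ∀ i ∈ s, In1 v (P i))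
    (hd : ∀ i ∈ s, ∀ j ∈ s, i ≠ j → dp v (P i) ≠ dp v (P j)) :
    In1 v (∑ i ∈ s, P i) ∧ ∃ j ∈ s, dp v (∑ i ∈ s, P i) = dp v (P j) := by
  induction hs using Finset.Nonempty.cons_induction with
  | singleton a =>
    rw [Finset.sum_singleton]
    exact ⟨h1 a (Finset.mem_singleton_self a), a, Finset.mem_singleton_self a, rfl⟩
  | cons a s ha hs ih =>
    obtain ⟨ih1, j, hj, ih2⟩ := ih (fun i hi => h1 i (Finset.mem_cons_of_mem hi))
      (fun i hi j hj => hd i (Finset.mem_cons_of_mem hi) j (Finset.mem_cons_of_mem hj))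
    rw [Finset.sum_cons]
    have haj : dp v (P a) ≠ dp v (P j) := hd a (Finset.mem_cons_self a s) j
      (Finset.mem_cons_of_mem hj) (fun h => ha (h ▸ hj))
    rw [← ih2] at haj
    rcases lt_or_gt_of_ne haj with h | h
    · obtain ⟨h2, h3⟩ := add_of_lt v (h1 a (Finset.mem_cons_self a s)) ih1 h
      exact ⟨h2, j, Finset.mem_cons_of_mem hj, by rw [h3, ih2]⟩
    · obtain ⟨h2, h3⟩ := add_of_lt v ih1 (h1 a (Finset.mem_cons_self a s)) h
      rw [add_comm]
      exact ⟨h2, a, Finset.mem_cons_self a s, h3⟩

theorem sum_ne_zero {ι : Type*} [DecidableEq ι] (s : Finset ι) (hs : s.Nonempty)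
    (P : ι → (legendre lam).Point) (h1 : ∀ i ∈ s, In1 v (P i)) (h0 : ∀ i ∈ s, P i ≠ 0)
    (hd : ∀ i ∈ s, ∀ j ∈ s, i ≠ j → dp v (P i) ≠ dp v (P j)) :
    ∑ i ∈ s, P i ≠ 0 := by
  obtain ⟨_, j, hj, h2⟩ := exists_dp_sum v s hs P h1 hd
  intro h
  rw [h, dp_zero] at h2
  exact dp_ne_zero v (h1 j hj) (h0 j hj) h2.symm

end Pool.Agent.Lib.MP_a325a5_ag.Mixed
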