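import Pool.Agent.Lib.MP_a325a5_ag.Mixed.Pt

/-! Ties between corner monomials. -/

set_option linter.unusedSimpArgs false
set_option linter.unusedTactic false
set_option linter.unreachableTactic false
set_option linter.unnecessarySeqFocus false

namespace Pool.Agent.Lib.MP_a325a5_ag.Mixed

open WeierstrassCurve WeierstrassCurve.Affine

variable {K : Type*} [Field K] {Γ : Type*} [LinearOrderedCommGroupWithZero Γ]
  (v : Valuation K Γ) {lam : K}

theorem corner_mem_box {n M d : ℕ} (hd : n < d) (σ : Bool) (B : Finset (Fin n)) :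
    corner M d σ B ∈ box n M d := by
  have hB : B.card ≤ n := by simpa using B.card_le_univ
  have hsum : ∑ i, (corner M d σ B).2 i = B.card * M := by
    simp [corner, Finset.sum_ite_mem]
  have h1 : (corner M d σ B).1 + B.card * M ≤ d * M := by
    cases σ
    · simp only [corner]
      simp only [Bool.false_eq_true, if_false, zero_add]
      exact Nat.mul_le_mul_right _ (by omega)
    · simp only [corner]
      simp only [if_true]
      have : M * (d - B.card) + B.card * M = d * M := by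
        have h2 : d = (d - B.card) + B.card := by omega
        conv_rhs => rw [h2]
        ring
      omega
  simp only [box, Finset.mem_filter, Finset.mem_product, Finset.mem_range, Fintype.mem_piFinset]
  refine ⟨⟨?_, fun i => ?_⟩, ?_⟩
  · omega
  · simp only [corner]
    split_ifs <;> omega
  · rw [hsum]
    exact h1

theorem corner_inj {n M d : ℕ} (hM : 0 < M) (hd : n < d) {σ σ' : Bool} {B B' : Finset (Fin n)}
    (h : corner M d σ B = corner M d σ' B') : σ = σ' ∧ B = B' := by
  have h2 : B = B' := by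
    ext i
    have := congrFun (congrArg Prod.snd h) i
    simp only [corner] at this
    by_cases h3 : i ∈ B <;> by_cases h4 : i ∈ B' <;> simp [h3, h4] at this ⊢ <;> omega
  subst h2
  have hB : B.card ≤ n := by simpa using B.card_le_univ
  have h1 := congrArg Prod.fst h
  simp only [corner] at h1
  have h5 : 0 < M * (d - B.card) := Nat.mul_pos hM (by omega)
  cases σ <;> cases σ' <;> simp at h1 ⊢ <;> omega

theorem v_monomial {n M : ℕ} (P : Fin n → (legendre lam).Point) (m : Fin n → ℕ)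
    (h : ∀ i, P i = 0 → m i = M) :
    v (∏ i, (P i).xRep 0 ^ m i * (P i).xRep 1 ^ (M - m i)) = ∏ i, v ((P i).xRep 0) ^ m i := by
  rw [map_prod]
  refine Finset.prod_congr rfl fun i _ => ?_
  rw [map_mul, map_pow]
  by_cases hi : P i = 0
  · rw [hi, h i hi]
    simp
  · cases hP : P i with
    | zero => exact absurd hP hi
    | some x y hxy => simp

theorem monomial_eq_zero {n M : ℕ} (P : Fin n → (legendre lam).Point) (m : Fin n → ℕ)
    (hm : ∀ i, m i ≤ M) (h : ¬ ∀ i, P i = 0 → m i = M) :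
    ∏ i, (P i).xRep 0 ^ m i * (P i).xRep 1 ^ (M - m i) = 0 := by
  push Not at h
  obtain ⟨i, hi, hmi⟩ := h
  refine Finset.prod_eq_zero (Finset.mem_univ i) ?_
  rw [hi]
  have : M - m i ≠ 0 := by
    have := hm i
    omega
  simp [zero_pow this]

theorem exists_sigma {n : ℕ} (lam : K) (M d : ℕ) : ∃ σ : Bool, ∀ B : Finset (Fin n),
    v lam ^ (corner M d σ B).1 = LL v lam ^ (M * (d - B.card)) := by
  rcases le_total (v lam) 1 with h | h
  · refine ⟨false, fun B => ?_⟩
    have : LL v lam = 1 := max_eq_left h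
    rw [this, one_pow]
    simp [corner]
  · refine ⟨true, fun B => ?_⟩
    have : LL v lam = v lam := max_eq_right h
    rw [this]
    simp [corner]

/-- The bound of a monomial by a corner monomial. -/
theorem monomial_bound (h3 : v 3 < 1) (h30 : (3 : K) ≠ 0) {n M d : ℕ} (hd : n < d)
    (P : Fin n → (legendre lam).Point) (s : ℕ × (Fin n → ℕ)) (hs : s ∈ box n M d)
    (hs0 : ∀ i, P i = 0 → s.2 i = M) (B : Finset (Fin n)) (hB : ∀ i ∈ B, Large v (P i))
    (hB0 : ∀ i, P i = 0 → i ∈ B) (hBs : ∀ i, Large v (P i) → i ∉ B → s.2 i = 0) :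
    v 3 ^ (M * n) * (v lam ^ s.1 * ∏ i, v ((P i).xRep 0) ^ s.2 i) ≤
      LL v lam ^ (M * (d - B.card)) * ∏ i ∈ B, v ((P i).xRep 0) ^ M := by
  classical
  simp only [box, Finset.mem_filter, Finset.mem_product, Finset.mem_range,
    Fintype.mem_piFinset] at hs
  obtain ⟨⟨_, hs2⟩, hs3⟩ := hs
  have hv3 : v (3 : K) ≠ 0 := (Valuation.ne_zero_iff v).mpr h30
  have hL1 : 1 ≤ LL v lam := one_le_LL v
  have hLp : (0 : Γ) < LL v lam := zero_lt_one.trans_le hL1
  have hfac : ∀ i, v 3 ^ M * v ((P i).xRep 0) ^ s.2 i ≤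
      (if i ∈ B then v ((P i).xRep 0) ^ M else 1) *
        LL v lam ^ ((s.2 i : ℤ) - (if i ∈ B then (M : ℤ) else 0)) := by
    intro i
    have hmi : s.2 i ≤ M := by
      have := hs2 i
      omega
    have hv3M : v (3 : K) ^ M ≤ 1 := pow_le_one₀ zero_le h3.le
    cases hP : P i with
    | zero =>
      have hi0 : P i = 0 := hP
      rw [if_pos (hB0 i hi0), if_pos (hB0 i hi0), hs0 i hi0, sub_self, zpow_zero]
      rw [← Point.zero_def]
      simpa using hv3M
    | some x y hxy =>
      simp only [Point.xRep_some, Matrix.cons_val_zero]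
      by_cases hl : Large v (P i)
      · have hl' : LL v lam < v 3 * v x := by
          rw [hP] at hl
          exact hl
        have hLx : LL v lam ≤ v x := by
          refine hl'.le.trans ?_
          calc v 3 * v x ≤ 1 * v x := by gcongr
            _ = v x := one_mul _
        have hxp : 0 < v x := hLp.trans_le hLx
        by_cases hiB : i ∈ B
        · rw [if_pos hiB, if_pos hiB]
          have e1 : LL v lam ^ ((s.2 i : ℤ) - (M : ℤ)) = (LL v lam ^ (M - s.2 i))⁻¹ := by
            rw [← zpow_natCast, ← zpow_neg]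
            congr 1
            omega
          rw [e1]
          have e2 : v x ^ M = v x ^ s.2 i * v x ^ (M - s.2 i) := by
            rw [← pow_add]
            congr 1
            omega
          calc v 3 ^ M * v x ^ s.2 i ≤ 1 * v x ^ s.2 i := by gcongr
            _ = v x ^ s.2 i * (LL v lam ^ (M - s.2 i) * (LL v lam ^ (M - s.2 i))⁻¹) := by
                rw [mul_inv_cancel₀ (pow_ne_zero _ hLp.ne'), one_mul, mul_one]
            _ ≤ v x ^ s.2 i * (v x ^ (M - s.2 i) * (LL v lam ^ (M - s.2 i))⁻¹) := by gcongr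
            _ = v x ^ M * (LL v lam ^ (M - s.2 i))⁻¹ := by rw [e2, mul_assoc]
        · rw [if_neg hiB, if_neg hiB, hBs i hl hiB]
          simpa using hv3M
      · have hiB : i ∉ B := fun h => hl (hB i h)
        rw [if_neg hiB, if_neg hiB, sub_zero, one_mul, zpow_natCast]
        have hl' : v 3 * v x ≤ LL v lam := by
          rw [hP] at hl
          exact not_lt.mp hl
        have e2 : v (3 : K) ^ M = v 3 ^ (M - s.2 i) * v 3 ^ s.2 i := by
          rw [← pow_add]
          congr 1
          omega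
        calc v 3 ^ M * v x ^ s.2 i = v 3 ^ (M - s.2 i) * (v 3 * v x) ^ s.2 i := by
              rw [e2, mul_pow, mul_assoc]
          _ ≤ 1 * LL v lam ^ s.2 i := by
              gcongr
              exact pow_le_one₀ zero_le h3.le
          _ = LL v lam ^ s.2 i := one_mul _
  have hprod := Finset.prod_le_prod' (s := Finset.univ) fun i _ => hfac i
  rw [Finset.prod_mul_distrib, Finset.prod_mul_distrib, Finset.prod_const, Finset.card_univ,
    Fintype.card_fin, ← pow_mul] at hprod
  have e3 : ∏ i, (if i ∈ B then v ((P i).xRep 0) ^ M else 1) =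
      ∏ i ∈ B, v ((P i).xRep 0) ^ M := by
    rw [Finset.prod_ite_mem, Finset.univ_inter]
  have e4 : ∏ i, LL v lam ^ ((s.2 i : ℤ) - (if i ∈ B then (M : ℤ) else 0)) =
      LL v lam ^ ((∑ i, (s.2 i : ℤ)) - B.card * M) := by
    have h5 : ∀ t : Finset (Fin n), ∏ i ∈ t, LL v lam ^ ((s.2 i : ℤ) -
        (if i ∈ B then (M : ℤ) else 0)) =
        LL v lam ^ (∑ i ∈ t, ((s.2 i : ℤ) - (if i ∈ B then (M : ℤ) else 0))) := by
      intro t
      induction t using Finset.induction_on with
      | empty => simp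
      | insert x t hx ih =>
        rw [Finset.prod_insert hx, Finset.sum_insert hx, zpow_add₀ hLp.ne', ih]
    rw [h5 Finset.univ, Finset.sum_sub_distrib, Finset.sum_ite_mem, Finset.univ_inter,
      Finset.sum_const, nsmul_eq_mul]
  rw [e3, e4] at hprod
  have hB' : B.card ≤ n := by simpa using B.card_le_univ
  calc v 3 ^ (M * n) * (v lam ^ s.1 * ∏ i, v ((P i).xRep 0) ^ s.2 i)
      = v lam ^ s.1 * (v 3 ^ (M * n) * ∏ i, v ((P i).xRep 0) ^ s.2 i) := by ac_rfl
    _ ≤ LL v lam ^ s.1 * ((∏ i ∈ B, v ((P i).xRep 0) ^ M) *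
        LL v lam ^ ((∑ i, (s.2 i : ℤ)) - B.card * M)) := by
        gcongr
        exact lam_le_LL v
    _ = (LL v lam ^ (s.1 : ℤ) * LL v lam ^ ((∑ i, (s.2 i : ℤ)) - B.card * M)) *
        ∏ i ∈ B, v ((P i).xRep 0) ^ M := by
        rw [zpow_natCast]
        ac_rfl
    _ = LL v lam ^ ((s.1 : ℤ) + ((∑ i, (s.2 i : ℤ)) - B.card * M)) *
        ∏ i ∈ B, v ((P i).xRep 0) ^ M := by
        rw [zpow_add₀ hLp.ne']
    _ ≤ LL v lam ^ (M * (d - B.card)) * ∏ i ∈ B, v ((P i).xRep 0) ^ M := by
        gcongr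
        rw [← zpow_natCast]
        apply zpow_le_zpow_right₀ hL1
        have h6 : ((s.1 + ∑ i, s.2 i : ℕ) : ℤ) ≤ ((d * M : ℕ) : ℤ) := by exact_mod_cast hs3
        push_cast at h6 ⊢
        have h7 : ((d - B.card : ℕ) : ℤ) = (d : ℤ) - B.card := by
          rw [Nat.cast_sub (by omega)]
        rw [h7]
        nlinarith

/-- Ties: two different corner monomials supported on large points have the same value. -/
theorem exists_tie' (h3 : v 3 < 1) (h30 : (3 : K) ≠ 0) {n M d : ℕ} (hM : 0 < M) (hd : n < d)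
    (c : ℕ × (Fin n → ℕ) → K) (P : Fin n → (legendre lam).Point)
    (h1 : ∀ σ B, c (corner M d σ B) ≠ 0)
    (dom1 : ∀ σ σ' B B', B' ⊂ B →
      v (c (corner M d σ B)) < v (c (corner M d σ' B')) * v 3 ^ (M * n))
    (dom2 : ∀ s ∈ box n M d, (∀ σ B, s ≠ corner M d σ B) → ∀ σ B,
      v (c s) < v (c (corner M d σ B)) * v 3 ^ (M * n))
    (h0 : form M d c lam P = 0) :
    ∃ (σ : Bool) (B : Finset (Fin n)) (σ' : Bool) (B' : Finset (Fin n)),
      (σ, B) ≠ (σ', B') ∧ (∀ i ∈ B, Large v (P i)) ∧ (∀ i ∈ B', Large v (P i)) ∧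
      v lam ^ (corner M d σ B).1 ≠ 0 ∧ v lam ^ (corner M d σ' B').1 ≠ 0 ∧
      v (c (corner M d σ B)) * (v lam ^ (corner M d σ B).1 * ∏ i ∈ B, v ((P i).xRep 0) ^ M) =
        v (c (corner M d σ' B')) *
          (v lam ^ (corner M d σ' B').1 * ∏ i ∈ B', v ((P i).xRep 0) ^ M) := by
  classical
  have hv3 : v (3 : K) ≠ 0 := (Valuation.ne_zero_iff v).mpr h30
  have hv3p : 0 < v (3 : K) := zero_lt_iff.mpr hv3
  have hLp : (0 : Γ) < LL v lam := zero_lt_one.trans_le (one_le_LL v)
  let U : Finset (Fin n) := Finset.univ.filter fun i => Large v (P i)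
  have hU : ∀ i, i ∈ U ↔ Large v (P i) := fun i => by simp [U]
  have hIU : ∀ i, P i = 0 → i ∈ U := by
    intro i hi
    rw [hU, hi]
    exact large_zero v
  have hξ : ∀ i ∈ U, v ((P i).xRep 0) ≠ 0 := by
    intro i hi
    rw [hU] at hi
    cases hP : P i with
    | zero =>
      rw [← Point.zero_def]
      simp
    | some x y hxy =>
      rw [hP] at hi
      have := in1_of_large v hi
      have h5 : (0 : Γ) < v x := hLp.trans this
      simpa using h5.ne'
  obtain ⟨σ₀, hσ₀⟩ := exists_sigma (n := n) v lam M d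
  let term : ℕ × (Fin n → ℕ) → K := fun s => c s * lam ^ s.1 *
    ∏ i, (P i).xRep 0 ^ s.2 i * (P i).xRep 1 ^ (M - s.2 i)
  have hcorner : ∀ σ (B : Finset (Fin n)), (∀ i, P i = 0 → i ∈ B) →
      v (term (corner M d σ B)) = v (c (corner M d σ B)) *
        (v lam ^ (corner M d σ B).1 * ∏ i ∈ B, v ((P i).xRep 0) ^ M) := by
    intro σ B hB0
    have h5 : ∀ i, P i = 0 → (corner M d σ B).2 i = M := by
      intro i hi
      simp only [corner]
      rw [if_pos (hB0 i hi)]
    show v (c (corner M d σ B) * lam ^ (corner M d σ B).1 * _) = _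
    rw [map_mul, map_mul, map_pow, mul_assoc]
    congr 2
    rw [v_monomial v P _ h5]
    have h7 : ∀ i, v ((P i).xRep 0) ^ (corner M d σ B).2 i =
        if i ∈ B then v ((P i).xRep 0) ^ M else 1 := by
      intro i
      simp only [corner]
      split_ifs
      · rfl
      · rw [pow_zero]
    rw [Finset.prod_congr rfl fun i _ => h7 i, Finset.prod_ite_mem, Finset.univ_inter]
  have hpos : ∀ B : Finset (Fin n), B ⊆ U →
      0 < LL v lam ^ (M * (d - B.card)) * ∏ i ∈ B, v ((P i).xRep 0) ^ M := by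
    intro B hB
    rw [zero_lt_iff]
    refine mul_ne_zero (pow_ne_zero _ hLp.ne') (Finset.prod_ne_zero_iff.mpr fun i hi => ?_)
    exact pow_ne_zero _ (hξ i (hB hi))
  have hbox : (corner M d σ₀ U) ∈ box n M d := corner_mem_box hd σ₀ U
  obtain ⟨s₀, hs₀, hmax⟩ := (box n M d).exists_max_image (fun s => v (term s)) ⟨_, hbox⟩
  have hmaxpos : 0 < v (term s₀) := by
    refine lt_of_lt_of_le ?_ (hmax _ hbox)
    rw [hcorner σ₀ U hIU, hσ₀ U]
    exact mul_pos (zero_lt_iff.mpr ((Valuation.ne_zero_iff v).mpr (h1 σ₀ U))) (hpos U (by rfl))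
  -- strict domination
  have hdom : ∀ s ∈ box n M d, (∀ i, P i = 0 → s.2 i = M) → ∀ B : Finset (Fin n), B ⊆ U →
      (∀ i, P i = 0 → i ∈ B) → (∀ i, Large v (P i) → i ∉ B → s.2 i = 0) →
      v (c s) < v (c (corner M d σ₀ B)) * v 3 ^ (M * n) →
      v (term s) < v (term (corner M d σ₀ B)) := by
    intro s hs hs0 B hBU hB0 hBs hlt
    have hb := monomial_bound v h3 h30 hd P s hs hs0 B (fun i hi => (hU i).mp (hBU hi)) hB0 hBs
    have e1 : v (term s) = v (c s) * (v lam ^ s.1 * ∏ i, v ((P i).xRep 0) ^ s.2 i) := by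
      show v (c s * lam ^ s.1 * _) = _
      rw [map_mul, map_mul, map_pow, v_monomial v P _ hs0, mul_assoc]
    rw [e1, hcorner σ₀ B hB0, hσ₀ B]
    rcases eq_or_ne (v lam ^ s.1 * ∏ i, v ((P i).xRep 0) ^ s.2 i) 0 with h | h
    · rw [h, mul_zero]
      exact mul_pos (zero_lt_iff.mpr ((Valuation.ne_zero_iff v).mpr (h1 σ₀ B))) (hpos B hBU)
    · calc v (c s) * (v lam ^ s.1 * ∏ i, v ((P i).xRep 0) ^ s.2 i)
          < (v (c (corner M d σ₀ B)) * v 3 ^ (M * n)) *
            (v lam ^ s.1 * ∏ i, v ((P i).xRep 0) ^ s.2 i) :=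
            mul_lt_mul_of_pos_right hlt (zero_lt_iff.mpr h)
        _ = v (c (corner M d σ₀ B)) * (v 3 ^ (M * n) *
            (v lam ^ s.1 * ∏ i, v ((P i).xRep 0) ^ s.2 i)) := by ac_rfl
        _ ≤ _ := by gcongr
  have hclaim : ∀ s ∈ box n M d, v (term s) = v (term s₀) →
      ∃ σ B, s = corner M d σ B ∧ B ⊆ U ∧ ∀ i, P i = 0 → i ∈ B := by
    intro s hs hsv
    have hsle : ∀ i, s.2 i ≤ M := by
      intro i
      simp only [box, Finset.mem_filter, Finset.mem_product, Finset.mem_range,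
        Fintype.mem_piFinset] at hs
      have := hs.1.2 i
      omega
    have hs0 : ∀ i, P i = 0 → s.2 i = M := by
      by_contra hcon
      have h5 : term s = 0 := by
        show c s * lam ^ s.1 * _ = 0
        rw [monomial_eq_zero P s.2 hsle hcon, mul_zero]
      rw [h5, map_zero] at hsv
      exact hmaxpos.ne hsv
    by_cases hcor : ∀ σ B, s ≠ corner M d σ B
    · exfalso
      have h5 := hdom s hs hs0 U (by rfl) hIU (fun i hi hiU => absurd ((hU i).mpr hi) hiU)
        (dom2 s hs hcor σ₀ U)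
      exact absurd (hmax _ hbox) (not_le.mpr (hsv ▸ h5))
    · push Not at hcor
      obtain ⟨σ, B, rfl⟩ := hcor
      have hBiff : ∀ i, P i = 0 → i ∈ B := by
        intro i hi
        by_contra hiB
        have := hs0 i hi
        simp only [corner] at this
        rw [if_neg hiB] at this
        omega
      refine ⟨σ, B, rfl, ?_, hBiff⟩
      by_contra hBU
      have hss : B ∩ U ⊂ B := by
        refine ⟨Finset.inter_subset_left, fun h => hBU fun i hi => ?_⟩
        exact (Finset.mem_inter.mp (h hi)).2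
      have h5 := hdom _ hs hs0 (B ∩ U) Finset.inter_subset_right
        (fun i hi => Finset.mem_inter.mpr ⟨hBiff i hi, hIU i hi⟩)
        (fun i hi hiB => by
          simp only [corner]
          rw [if_neg]
          exact fun h => hiB (Finset.mem_inter.mpr ⟨h, (hU i).mpr hi⟩))
        (dom1 σ σ₀ B (B ∩ U) hss)
      exact absurd (hmax _ (corner_mem_box hd σ₀ (B ∩ U))) (not_le.mpr (hsv ▸ h5))
  have h0' : ∑ s ∈ box n M d, term s = 0 := h0
  obtain ⟨s₁, hs₁, hne, heq⟩ : ∃ s₁ ∈ box n M d, s₁ ≠ s₀ ∧ v (term s₁) = v (term s₀) := by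
    by_contra hcon
    push Not at hcon
    have h5 := Valuation.map_sum_eq_of_lt v (s := box n M d) (f := term) (j := s₀) hs₀
      (fun i hi => by
        have hi' := Finset.mem_sdiff.mp hi
        have hi2 : i ≠ s₀ := fun h => hi'.2 (Finset.mem_singleton.mpr h)
        exact lt_of_le_of_ne (hmax i hi'.1) (hcon i hi'.1 hi2))
    rw [h0', map_zero] at h5
    exact hmaxpos.ne h5
  obtain ⟨σ, B, e0, hBU, hB0⟩ := hclaim s₀ hs₀ rfl
  obtain ⟨σ', B', e1, hBU', hB0'⟩ := hclaim s₁ hs₁ heq
  have hv1 : v (term s₀) ≠ 0 := hmaxpos.ne'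
  have hv2 : v (term s₁) ≠ 0 := by rw [heq]; exact hv1
  rw [e0, hcorner σ B hB0] at hv1
  rw [e1, hcorner σ' B' hB0'] at hv2
  refine ⟨σ, B, σ', B', ?_, fun i hi => (hU i).mp (hBU hi), fun i hi => (hU i).mp (hBU' hi),
    left_ne_zero_of_mul (right_ne_zero_of_mul hv1), left_ne_zero_of_mul (right_ne_zero_of_mul hv2),
    ?_⟩
  · intro h
    rw [Prod.mk.injEq] at h
    apply hne
    rw [e0, e1, h.1, h.2]
  · rw [← hcorner σ B hB0, ← hcorner σ' B' hB0', ← e0, ← e1, heq]

end Pool.Agent.Lib.MP_a325a5_ag.Mixed
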